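import Pool.Agent.Helper54.SE.CFA1

/-!
# Project SE, block CFA: the places of the members of a family over the moving points
-/

universe u

set_option linter.unusedSectionVars false

namespace Pool.Agent.SE

open VC Polynomial Pool.Agent.LT Pool.Agent.SC Pool.Agent.GC Pool.Agent.Helper91.Sect Pool.Agent
  Pool.Agent.TWX Pool.Agent.TWT Pool.Agent.TWH Pool.Agent.TWU

/-- the data of a family on a curve: the functions are `G_{s+1}/G_0` -/
structure FamD54 {k₀ K₀ : Type u} [Field k₀] [Field K₀] [Algebra k₀ K₀] {N r : ℕ} (x z₀ : K₀)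
    (g : Fin r → MvPolynomial (Fin N) K₀) (Φ A B : k₀[X][X]) (D : k₀[X])
    (G G' G'' : Fin (r + 1) → (MvPolynomial (Fin N) k₀)[X][X])
    (Nm : Fin (r + 1) → (MvPolynomial (Fin N) k₀)[X]) : Prop where
  gen : IntermediateField.adjoin k₀ {x, z₀} = ⊤
  monic : Φ.Monic
  root : ev2 x z₀ Φ = 0
  bez : A * Φ + B * derivative Φ = C D
  D_ne : D ≠ 0
  num : ∀ s : Fin r, ThZ x z₀ N (G s.succ) = ThZ x z₀ N (G 0) * g s
  idn : ∀ s, G s * G' s + cst2 k₀ N Φ * G'' s = C (Nm s)
  Nm_ne : ∀ s, Nm s ≠ 0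

theorem kern54 {R S : Type*} [CommRing R] [CommRing S] (F : R →+* S) {φ P Q : R}
    (hker : ∀ p, F p = 0 → φ ∣ p) (h : F P = F Q) : ∃ W, P + φ * W = Q := by
  obtain ⟨W, hW⟩ := hker (P - Q) (by rw [map_sub, h, sub_self])
  exact ⟨-W, by linear_combination hW⟩

theorem exists_famD54 {k₀ K₀ : Type u} [Field k₀] [CharZero k₀] [Field K₀] [Algebra k₀ K₀]
    (hK₀ : IsFunctionField k₀ K₀) {x : K₀} (hx : Transcendental k₀ x) {N r : ℕ}
    (g : Fin r → MvPolynomial (Fin N) K₀) (hg : ∀ s, g s ≠ 0) :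
    ∃ (z₀ : K₀) (Φ A B : k₀[X][X]) (D : k₀[X])
      (G G' G'' : Fin (r + 1) → (MvPolynomial (Fin N) k₀)[X][X])
      (Nm : Fin (r + 1) → (MvPolynomial (Fin N) k₀)[X]), FamD54 x z₀ g Φ A B D G G' G'' Nm := by
  classical
  obtain ⟨z₀, Φ, A, B, D, hgen, hm, hroot, hker, hbez, hD⟩ := exists_plane54 hK₀ hx
  have hfin := hK₀.finiteDimensional hx
  -- the norms
  choose n₀ hn₀ hdvd using fun s => MvPolynomial.exists_dvd_map_of_isAlgebraic
    (R := IntermediateField.adjoin k₀ {x}) (hg s)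
  choose g' hg' using hdvd
  obtain ⟨D₁, n, hD₁, hn⟩ := exists_num hx (fun s => (n₀ s).map (algebraMap _ K₀)) (fun s ν => by
    rw [MvPolynomial.coeff_map]
    exact SetLike.coe_mem _)
  obtain ⟨d, P, hd, hP⟩ := exists_numZs54 hK₀ hx hgen g
  obtain ⟨d', P', hd', hP'⟩ := exists_numZs54 hK₀ hx hgen g'
  have hxne : ∀ {p : k₀[X]}, p ≠ 0 → aeval x p ≠ 0 := fun hp h0 =>
    hp ((transcendental_iff.1 hx) _ h0)
  have hCinj : Function.Injective (MvPolynomial.C : k₀ →+* MvPolynomial (Fin N) k₀) :=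
    MvPolynomial.C_injective _ _
  have hmne : ∀ {p : k₀[X]}, p ≠ 0 → p.map (MvPolynomial.C : k₀ →+* MvPolynomial (Fin N) k₀) ≠ 0 :=
    fun hp => (Polynomial.map_ne_zero_iff hCinj).2 hp
  have hn0 : ∀ s, n s ≠ 0 := by
    intro s h0
    have h1 := hn s
    rw [h0, map_zero] at h1
    refine mul_ne_zero ?_ ?_ h1.symm
    · rw [Ne, MvPolynomial.C_eq_zero]
      exact hxne hD₁
    · exact fun h0 => hn₀ s (MvPolynomial.map_injective _
        (algebraMap (IntermediateField.adjoin k₀ {x}) K₀).injective (by rw [h0, map_zero]))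
  -- the identities
  have hidn : ∀ s, ∃ Q, P s * (cst2 k₀ N (C D₁) * P' s) + cst2 k₀ N Φ * Q =
      C ((d * d').map MvPolynomial.C * n s) := by
    intro s
    refine kern54 (ThZ x z₀ N) (fun p hp => dvd_of_ThZ54 hker hp) ?_
    rw [map_mul, map_mul, hP, hP', ThZ_cst, ev2_C54, ThZ_C, map_mul, Th_map, hn, hg', map_mul, map_mul]
    ring
  choose Q hQ using hidn
  refine ⟨z₀, Φ, A, B, D, Fin.cons (cst2 k₀ N (C d)) P, Fin.cons 1 fun s => cst2 k₀ N (C D₁) * P' s,
    Fin.cons 0 Q, Fin.cons (d.map MvPolynomial.C) fun s => (d * d').map MvPolynomial.C * n s,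
    hgen, hm, hroot, hbez, hD, fun s => ?_, fun s => ?_, fun s => ?_⟩
  · rw [Fin.cons_succ, Fin.cons_zero, hP, ThZ_cst, ev2_C54]
  · refine Fin.cases ?_ (fun s => ?_) s
    · rw [Fin.cons_zero, Fin.cons_zero, Fin.cons_zero, Fin.cons_zero, mul_one, mul_zero, add_zero, cst2_C]
    · rw [Fin.cons_succ, Fin.cons_succ, Fin.cons_succ, Fin.cons_succ]
      exact hQ s
  · refine Fin.cases ?_ (fun s => ?_) s
    · rw [Fin.cons_zero]
      exact hmne hd
    · rw [Fin.cons_succ]
      exact mul_ne_zero (hmne (mul_ne_zero hd hd')) (hn0 s)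

section spec

variable {k₀ K₀ k K₁ : Type u} [Field k₀] [Field K₀] [Algebra k₀ K₀] [Field k] [Field K₁] [Algebra k K₁]
  [Algebra k₀ k] [Algebra K₀ K₁] [Algebra k₀ K₁] [IsScalarTower k₀ k K₁] [IsScalarTower k₀ K₀ K₁]
  {N : ℕ}

/-- the specialisation of the families -/
noncomputable def fp54 (K₀ K₁ : Type u) [Field K₀] [Field K₁] [Algebra K₀ K₁] [Algebra k K₁]
    (a : Fin N → k) : MvPolynomial (Fin N) K₀ →+* K₁ :=
  MvPolynomial.eval₂Hom (algebraMap K₀ K₁) fun q => algebraMap k K₁ (a q)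

theorem fp54_apply (a : Fin N → k) (g : MvPolynomial (Fin N) K₀) : fp54 K₀ K₁ a g = famp a g := rfl

theorem fp54_C (a : Fin N → k) (z : K₀) : fp54 K₀ K₁ a (MvPolynomial.C z) = algebraMap K₀ K₁ z :=
  MvPolynomial.eval₂_C _ _ _

/-- the specialisation of the polynomials in two variables -/
noncomputable def sp2 (ι : k₀ →+* k) (a : Fin N → k) : (MvPolynomial (Fin N) k₀)[X][X] →+* k[X][X] :=
  mapRingHom (mapRingHom (evp ι a))

theorem sp2_C (ι : k₀ →+* k) (a : Fin N → k) (p : (MvPolynomial (Fin N) k₀)[X]) :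
    sp2 ι a (C p) = C (p.map (evp ι a)) := map_C _

theorem sp2_coeff (ι : k₀ →+* k) (a : Fin N → k) (P : (MvPolynomial (Fin N) k₀)[X][X]) (i j : ℕ) :
    ((sp2 ι a P).coeff i).coeff j = evp ι a ((P.coeff i).coeff j) := by
  rw [sp2, coe_mapRingHom, coeff_map, coe_mapRingHom, coeff_map]

theorem evp_C (ι : k₀ →+* k) (a : Fin N → k) (c : k₀) : evp ι a (MvPolynomial.C c) = ι c :=
  MvPolynomial.eval₂_C _ _ _

theorem map_map_evp (ι : k₀ →+* k) (a : Fin N → k) (p : k₀[X]) :
    (p.map (MvPolynomial.C : k₀ →+* MvPolynomial (Fin N) k₀)).map (evp ι a) = p.map ι := by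
  rw [Polynomial.map_map]
  congr 1
  exact RingHom.ext fun c => evp_C ι a c

theorem fp_Th54 (a : Fin N → k) (x : K₀) (p : (MvPolynomial (Fin N) k₀)[X]) :
    fp54 K₀ K₁ a (Th x N p) = aeval (algebraMap K₀ K₁ x) (p.map (evp (algebraMap k₀ k) a)) :=
  famH_Th (fun o => o.elim 0 a) x p

theorem fp_ThZ54 (a : Fin N → k) (x z : K₀) (P : (MvPolynomial (Fin N) k₀)[X][X]) :
    fp54 K₀ K₁ a (ThZ x z N P) =
      ev2 (algebraMap K₀ K₁ x) (algebraMap K₀ K₁ z) (sp2 (algebraMap k₀ k) a P) := by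
  have h1 : (fp54 K₀ K₁ a).comp (ThZ (k₀ := k₀) x z N) =
      (ev2 (algebraMap K₀ K₁ x) (algebraMap K₀ K₁ z)).comp (sp2 (algebraMap k₀ k) a) := by
    apply Polynomial.ringHom_ext
    · intro p
      rw [RingHom.comp_apply, RingHom.comp_apply, ThZ_C, fp_Th54, sp2_C, ev2_C54]
    · rw [RingHom.comp_apply, RingHom.comp_apply, ThZ_X, fp54_C]
      have h2 : sp2 (algebraMap k₀ k) a (X : (MvPolynomial (Fin N) k₀)[X][X]) = X := map_X _
      rw [h2, ev2_X54]
  exact congrArg (fun f : (MvPolynomial (Fin N) k₀)[X][X] →+* K₁ => f P) h1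

end spec

/-- the coefficients of finitely many polynomials -/
theorem exists_coeffs54 {R : Type u} [CommRing R] (T₁ : Finset R[X]) (T₂ : Finset R[X][X]) :
    ∃ E : Finset R, (∀ p ∈ T₁, ∀ i, p.coeff i ∈ E) ∧ ∀ p ∈ T₂, ∀ i j, (p.coeff i).coeff j ∈ E := by
  classical
  refine ⟨insert 0 ((T₁.biUnion fun p => p.support.image p.coeff) ∪
    T₂.biUnion fun p => p.support.biUnion fun i => (p.coeff i).support.image (p.coeff i).coeff),
    fun p hp i => ?_, fun p hp i j => ?_⟩
  · by_cases h : p.coeff i = 0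
    · rw [h]
      exact Finset.mem_insert_self _ _
    · refine Finset.mem_insert_of_mem (Finset.mem_union_left _ (Finset.mem_biUnion.2 ⟨p, hp, ?_⟩))
      exact Finset.mem_image_of_mem _ (mem_support_iff.2 h)
  · by_cases h : (p.coeff i).coeff j = 0
    · rw [h]
      exact Finset.mem_insert_self _ _
    · refine Finset.mem_insert_of_mem (Finset.mem_union_right _ (Finset.mem_biUnion.2 ⟨p, hp,
        Finset.mem_biUnion.2 ⟨i, ?_, ?_⟩⟩))
      · rw [mem_support_iff]
        intro h0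
        rw [h0, coeff_zero] at h
        exact h rfl
      · exact Finset.mem_image_of_mem _ (mem_support_iff.2 h)

/-- the function field of the member -/
theorem ff_map54 {k₀ K₀ k K₁ : Type u} [Field k₀] [CharZero k₀] [Field K₀] [Algebra k₀ K₀] [Field k]
    [CharZero k] [Field K₁] [Algebra k K₁] [Algebra k₀ k] [Algebra K₀ K₁] [Algebra k₀ K₁]
    [IsScalarTower k₀ k K₁] [IsScalarTower k₀ K₀ K₁] (hK₀ : IsFunctionField k₀ K₀) {x z₀ : K₀}
    (hx : Transcendental k₀ x) (hgen₀ : IntermediateField.adjoin k₀ {x, z₀} = ⊤)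
    (hgen : IntermediateField.adjoin k (Set.range (algebraMap K₀ K₁)) = ⊤)
    (htr : Transcendental k (algebraMap K₀ K₁ x)) :
    IsFunctionField k K₁ ∧ IntermediateField.adjoin k {algebraMap K₀ K₁ x, algebraMap K₀ K₁ z₀} = ⊤ := by
  set x' := algebraMap K₀ K₁ x with hx'
  set z' := algebraMap K₀ K₁ z₀ with hz'
  have htop : IntermediateField.adjoin k {x', z'} = ⊤ := by
    have h1 : ∀ a : K₀, algebraMap K₀ K₁ a ∈ IntermediateField.adjoin k {x', z'} := by
      have h2 : (IntermediateField.adjoin k₀ {x, z₀}).toSubfield ≤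
          (IntermediateField.adjoin k {x', z'}).toSubfield.comap (algebraMap K₀ K₁) := by
        rw [IntermediateField.adjoin_toSubfield, Subfield.closure_le]
        rintro _ (⟨c, rfl⟩ | rfl | hz)
        · change algebraMap K₀ K₁ (algebraMap k₀ K₀ c) ∈ IntermediateField.adjoin k {x', z'}
          rw [← IsScalarTower.algebraMap_apply, IsScalarTower.algebraMap_apply k₀ k K₁]
          exact IntermediateField.algebraMap_mem _ _
        · exact IntermediateField.subset_adjoin _ _ (Or.inl rfl)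
        · rw [Set.mem_singleton_iff.1 hz]
          exact IntermediateField.subset_adjoin _ _ (Or.inr rfl)
      rw [hgen₀] at h2
      exact fun a => h2 (show a ∈ (⊤ : IntermediateField k₀ K₀) from trivial)
    rw [eq_top_iff, ← hgen, IntermediateField.adjoin_le_iff]
    rintro _ ⟨a, rfl⟩
    exact h1 a
  have hfin0 := hK₀.finiteDimensional hx
  have hz : IsAlgebraic (IntermediateField.adjoin k {x'}) z' := by
    have h1 : IsAlgebraic (IntermediateField.adjoin k₀ {x}) (algebraMap K₀ K₁ z₀) :=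
      (Algebra.IsAlgebraic.isAlgebraic (R := IntermediateField.adjoin k₀ {x}) z₀).algebraMap
    have h2 : ∀ a : IntermediateField.adjoin k₀ {x}, algebraMap K₀ K₁ a ∈
        IntermediateField.adjoin k {x'} := by
      have h3 : (IntermediateField.adjoin k₀ {x}).toSubfield ≤
          (IntermediateField.adjoin k {x'}).toSubfield.comap (algebraMap K₀ K₁) := by
        rw [IntermediateField.adjoin_toSubfield, Subfield.closure_le]
        rintro _ (⟨c, rfl⟩ | hz)
        · change algebraMap K₀ K₁ (algebraMap k₀ K₀ c) ∈ IntermediateField.adjoin k {x'}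
          rw [← IsScalarTower.algebraMap_apply, IsScalarTower.algebraMap_apply k₀ k K₁]
          exact IntermediateField.algebraMap_mem _ _
        · rw [Set.mem_singleton_iff.1 hz]
          exact IntermediateField.mem_adjoin_simple_self k x'
      exact fun a => h3 a.2
    exact isAlgebraic_of_range_le (A := IntermediateField.adjoin k₀ {x})
      (fun a => ⟨⟨_, h2 a⟩, rfl⟩) h1
  have htop' : IntermediateField.adjoin (IntermediateField.adjoin k {x'}) {z'} = ⊤ := by
    have h4 : (IntermediateField.adjoin (IntermediateField.adjoin k {x'}) {z'}).restrictScalars k =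
        IntermediateField.adjoin k {x', z'} := by
      rw [IntermediateField.adjoin_adjoin_left]
      rfl
    rw [eq_top_iff]
    intro a _
    have h5 : a ∈ (IntermediateField.adjoin (IntermediateField.adjoin k {x'})
        {z'}).restrictScalars k := by
      rw [h4, htop]
      trivial
    exact h5
  have hfin : FiniteDimensional (IntermediateField.adjoin k {x'}) K₁ := by
    have h1 : FiniteDimensional (IntermediateField.adjoin k {x'})
        (IntermediateField.adjoin (IntermediateField.adjoin k {x'}) {z'}) :=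
      IntermediateField.adjoin.finiteDimensional hz.isIntegral
    rw [htop'] at h1
    exact (IntermediateField.topEquiv (F := IntermediateField.adjoin k {x'})
      (E := K₁)).toLinearEquiv.finiteDimensional
  exact ⟨⟨x', htr, hfin⟩, htop⟩

/-- the certificate of the shifts at a point -/
theorem shift_root54 {R₀ k Ω : Type u} [CommRing R₀] [Field k] [Field Ω] [Algebra k Ω] (ev : R₀ →+* k)
    {F f : R₀[X]} {Us Vs Φ : R₀[X][X]} {l : ℕ}
    (hF : eval₂ ((C : R₀[X] →+* R₀[X][X]).comp (C : R₀ →+* R₀[X])) (C X + (l : R₀[X][X]) * X) F =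
      Us * C f + Vs * Φ) {ξ ζ : Ω} (h1 : aeval ξ (f.map ev) = 0)
    (h2 : ev2 ξ ζ (Φ.map (mapRingHom ev)) = 0) : aeval (ξ + l * ζ) (F.map ev) = 0 := by
  let ψ : R₀[X][X] →+* Ω := (ev2 ξ ζ).comp (mapRingHom (mapRingHom ev))
  have hψC : ∀ p : R₀[X], ψ (C p) = aeval ξ (p.map ev) := by
    intro p
    change ev2 ξ ζ ((C p).map (mapRingHom ev)) = _
    rw [map_C, ev2_C54]
    rfl
  have hψX : ψ X = ζ := by
    change ev2 ξ ζ ((X : R₀[X][X]).map (mapRingHom ev)) = _
    rw [map_X, ev2_X54]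
  have h3 := congrArg ψ hF
  have h4 : ψ (Us * C f + Vs * Φ) = 0 := by
    rw [map_add, map_mul, map_mul, hψC, h1, mul_zero, zero_add]
    have h5 : ψ Φ = 0 := h2
    rw [h5, mul_zero]
  rw [h4, hom_eval₂] at h3
  rw [← h3, aeval_def, eval₂_map]
  congr 1
  · refine RingHom.ext fun c => ?_
    change algebraMap k Ω (ev c) = ψ (C (C c))
    rw [hψC, map_C, aeval_C]
  · rw [map_add, map_mul, map_natCast, hψC, hψX, map_X, aeval_X]

/-- **Block CFA.** -/
theorem cfa (h : StmtCFV.{u}) : StmtCFA.{u} := by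
  classical
  intro k₀ K₀ _ _ _ _ hK₀ x hx N r g hg
  obtain ⟨z₀, Φ, A, B, D, G, G', G'', Nm, hd⟩ := exists_famD54 hK₀ hx g hg
  have hCinj : Function.Injective (MvPolynomial.C : k₀ →+* MvPolynomial (Fin N) k₀) :=
    MvPolynomial.C_injective _ _
  set Dc : (MvPolynomial (Fin N) k₀)[X] := D.map MvPolynomial.C with hDc
  have hD0 : Dc ≠ 0 := (Polynomial.map_ne_zero_iff hCinj).2 hd.D_ne
  have hNm0 : ∏ s, Nm s ≠ 0 := Finset.prod_ne_zero_iff.2 fun s _ => hd.Nm_ne s
  obtain ⟨ff, R₁, b, M, hb, hffd, hdisc, hrad₁⟩ := exists_rad (Q := (Dc * ∏ s, Nm s) * X) (by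
    rw [natDegree_mul (mul_ne_zero hD0 hNm0) X_ne_zero, natDegree_X]
    omega)
  obtain ⟨R, hrad⟩ : ∃ R, (Dc * ∏ s, Nm s) * R = C b * ff ^ M := ⟨X * R₁, by rw [← hrad₁]; ring⟩
  have hff0 : ff ≠ 0 := ne_zero_of_natDegree_gt (n := 0) (by omega)
  have hlc : ff.leadingCoeff ≠ 0 := leadingCoeff_ne_zero.2 hff0
  have hΦc : (cst2 k₀ N Φ).Monic := hd.monic.map _
  have hΦdeg : (cst2 k₀ N Φ).natDegree = Φ.natDegree := hd.monic.natDegree_map _
  choose F Us Vs hF0 hF using fun l => exists_shift54 (A := MvPolynomial (Fin N) k₀) hff0 hΦc l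
  obtain ⟨E₀, hE1, hE2⟩ := exists_coeffs54 (({ff, R, Dc} : Finset _) ∪ Finset.univ.image Nm)
    (({cst2 k₀ N Φ, cst2 k₀ N A, cst2 k₀ N B} : Finset _) ∪ (Finset.univ.image G ∪
      (Finset.univ.image G' ∪ Finset.univ.image G'')))
  set U : Finset (MvPolynomial (Fin N) k₀) := {b, ff.leadingCoeff, ff.discr, Dc.leadingCoeff} ∪
    Finset.univ.image (fun s => (Nm s).leadingCoeff) with hU
  set E : Finset (MvPolynomial (Fin N) k₀) := U ∪ E₀ with hE
  have hE1' : ∀ p ∈ ({ff, R, Dc} : Finset _) ∪ Finset.univ.image Nm, ∀ i, p.coeff i ∈ E :=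
    fun p hp i => Finset.mem_union_right _ (hE1 p hp i)
  have hE2' : ∀ p ∈ (({cst2 k₀ N Φ, cst2 k₀ N A, cst2 k₀ N B} : Finset _) ∪ (Finset.univ.image G ∪
      (Finset.univ.image G' ∪ Finset.univ.image G''))), ∀ i j, (p.coeff i).coeff j ∈ E :=
    fun p hp i j => Finset.mem_union_right _ (hE2 p hp i j)
  have hEff := hE1' ff (by simp)
  have hER := hE1' R (by simp)
  have hED := hE1' Dc (by simp)
  have hEN : ∀ s i, (Nm s).coeff i ∈ E := fun s => hE1' _ (by simp)
  have hEΦ := hE2' (cst2 k₀ N Φ) (by simp)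
  have hEA := hE2' (cst2 k₀ N A) (by simp)
  have hEB := hE2' (cst2 k₀ N B) (by simp)
  have hEG : ∀ s i j, ((G s).coeff i).coeff j ∈ E := fun s => hE2' _ (by simp)
  have hEG' : ∀ s i j, ((G' s).coeff i).coeff j ∈ E := fun s => hE2' _ (by simp)
  have hEG'' : ∀ s i j, ((G'' s).coeff i).coeff j ∈ E := fun s => hE2' _ (by simp)
  have hbU : b ∈ U := by rw [hU]; simp
  have hlU : ff.leadingCoeff ∈ U := by rw [hU]; simp
  have hdU : ff.discr ∈ U := by rw [hU]; simp
  have hDU : Dc.leadingCoeff ∈ U := by rw [hU]; simp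
  have hNU : ∀ s, (Nm s).leadingCoeff ∈ U := fun s => by
    rw [hU]
    exact Finset.mem_union_right _ (Finset.mem_image_of_mem (fun s => (Nm s).leadingCoeff)
      (Finset.mem_univ s))
  refine ⟨z₀, D, ff, ∏ l ∈ Finset.range ((ff.natDegree * Φ.natDegree) ^ 2 + 1), F l, E, U, hd.D_ne,
    Finset.prod_ne_zero_iff.2 fun l _ => hF0 l, hffd, hlU, hdU, hEff, Finset.subset_union_left, ?_, ?_⟩
  · intro h0
    rcases Finset.mem_union.1 h0 with h0 | h0
    · simp only [Finset.mem_insert, Finset.mem_singleton] at h0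
      rcases h0 with h0 | h0 | h0 | h0
      · exact hb h0.symm
      · exact hlc h0.symm
      · exact hdisc h0.symm
      · exact leadingCoeff_ne_zero.2 hD0 h0.symm
    · obtain ⟨s, -, h0⟩ := Finset.mem_image.1 h0
      exact leadingCoeff_ne_zero.2 (hd.Nm_ne s) h0
  intro k K₁ _ _ _ _ _ _ _ _ _ hgen htr a haU
  have hk0 : CharZero k := charZero_of_injective_algebraMap (algebraMap k₀ k).injective
  have htx : Transcendental k (algebraMap K₀ K₁ x) := transc_map hK₀ hx htr
  obtain ⟨hff', hgen'⟩ := ff_map54 hK₀ hx hd.gen hgen htx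
  set ev := evp (algebraMap k₀ k) a with hev
  set sp := sp2 (algebraMap k₀ k) a with hsp
  set x' := algebraMap K₀ K₁ x with hx'
  set z' := algebraMap K₀ K₁ z₀ with hz'
  have hlcf : ev ff.leadingCoeff ≠ 0 := haU _ hlU
  have hroot : ev2 x' z' (sp (cst2 k₀ N Φ)) = 0 := by
    rw [hsp, hx', hz', ← fp_ThZ54, ThZ_cst, hd.root, map_zero, map_zero]
  have hPl : PlD54 x' z' (sp (cst2 k₀ N Φ)) (sp (cst2 k₀ N A)) (sp (cst2 k₀ N B)) (Dc.map ev)
      (fun s => sp (G s)) (fun s => sp (G' s)) (fun s => sp (G'' s)) (fun s => (Nm s).map ev)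
      (ff.map ev) (R.map ev) (ev b) M := by
    refine ⟨hff', htx, hgen', hΦc.map _, hroot, ?_, fun s => ?_, ?_, ?_, haU b hbU, ?_⟩
    · have h1 := congrArg (fun p => sp (cst2 k₀ N p)) hd.bez
      simp only [map_add, map_mul] at h1
      rw [cst2_C, hsp, sp2_C] at h1
      have h2 : derivative (sp (cst2 k₀ N Φ)) = sp (cst2 k₀ N (derivative Φ)) := by
        rw [hsp, sp2, cst2, coe_mapRingHom, coe_mapRingHom, derivative_map, derivative_map]
      rw [h2]
      exact h1
    · have h1 := congrArg sp (hd.idn s)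
      rw [map_add, map_mul, map_mul] at h1
      rw [h1, hsp, sp2_C]
    · rw [natDegree_map_of_leadingCoeff_ne_zero ev hlcf]
      exact hffd
    · exact separable_map_of_discr ev ff (by omega) hlcf (haU _ hdU)
    · have h1 := congrArg (fun p => Polynomial.map ev p) hrad
      simp only [Polynomial.map_mul, Polynomial.map_prod, Polynomial.map_pow, map_C] at h1
      exact h1
  -- the product
  have hG0 : ev2 x' z' (sp (G 0)) ≠ 0 := hPl.G_ne 0
  have hnum : ∀ s : Fin r, ev2 x' z' (sp (G s.succ)) = ev2 x' z' (sp (G 0)) * famp (K₁ := K₁) a (g s) := by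
    intro s
    rw [hsp, hx', hz', ← fp_ThZ54, ← fp_ThZ54, hd.num, map_mul]
    rfl
  have hprod : ∀ e : Fin r → ℤ, ∏ s, ev2 x' z' (sp (G s)) ^ (Fin.cons (- ∑ s, e s) e : Fin (r + 1) → ℤ) s =
      ∏ s, famp (K₁ := K₁) a (g s) ^ e s := by
    intro e
    rw [Fin.prod_univ_succ, Fin.cons_zero]
    simp only [Fin.cons_succ, hnum, mul_zpow]
    rw [Finset.prod_mul_distrib, ← mul_assoc]
    have h1 : ev2 x' z' (sp (G 0)) ^ (- ∑ s, e s) * ∏ s, ev2 x' z' (sp (G 0)) ^ e s = 1 := by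
      have h2 : ∀ T : Finset (Fin r), ∏ s ∈ T, ev2 x' z' (sp (G 0)) ^ e s =
          ev2 x' z' (sp (G 0)) ^ (∑ s ∈ T, e s) := by
        intro T
        induction T using Finset.induction_on with
        | empty => simp
        | insert s T hs ih => rw [Finset.prod_insert hs, Finset.sum_insert hs, ih, zpow_add₀ hG0]
      rw [h2, zpow_neg]
      exact inv_mul_cancel₀ (zpow_ne_zero _ hG0)
    rw [h1, one_mul]
  have hco : ∀ h ∈ E, ev h ∈ E.image ev ∪ U.image fun h => (ev h)⁻¹ := fun h hh =>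
    Finset.mem_union_left _ (Finset.mem_image_of_mem _ hh)
  have hbE : b ∈ E := Finset.mem_union_left _ hbU
  refine ⟨fun e => ?_, ?_⟩
  · rw [← hprod]
    refine hPl.coord ?_ ?_ (hco _ hbE) (Finset.mem_union_right _
      (Finset.mem_image_of_mem (fun h => (ev h)⁻¹) hbU)) _
    · rintro p ((rfl | rfl | rfl) | ⟨s, rfl⟩) i
      · rw [coeff_map]; exact hco _ (hEff i)
      · rw [coeff_map]; exact hco _ (hER i)
      · rw [coeff_map]; exact hco _ (hED i)
      · simp only [coeff_map]; exact hco _ (hEN s i)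
    · rintro p ((rfl | rfl | rfl) | ⟨s, rfl⟩ | ⟨s, rfl⟩) i j
      · rw [hsp, sp2_coeff]; exact hco _ (hEΦ i j)
      · rw [hsp, sp2_coeff]; exact hco _ (hEA i j)
      · rw [hsp, sp2_coeff]; exact hco _ (hEB i j)
      · simp only [hsp, sp2_coeff]; exact hco _ (hEG s i j)
      · simp only [hsp, sp2_coeff]; exact hco _ (hEG' s i j)
  intro W hWE hWU P₁ hxP hDP hfP e
  have hDc' : Dc.map ev = D.map (algebraMap k₀ k) := by rw [hDc, hev, map_map_evp]
  have hff1 : ff.map ev ≠ 0 := ne_zero_of_natDegree_gt (n := 0) (by have := hPl.deg; omega)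
  obtain ⟨l, π, q, p, hl, hpd, hroots, hW⟩ := h hff' htx hgen' hPl.monic hPl.root hPl.bez hff1
    hPl.prod_ne.1 hPl.idn hPl.prod_ne.2 (fun c hc => hPl.root_dvd (dvd_mul_right _ _) hc)
    (fun s c hc => hPl.root_dvd ((Finset.dvd_prod_of_mem _ (Finset.mem_univ s)).mul_left _) hc)
    P₁ hxP (by rw [hDc']; exact hDP) hfP (Fin.cons (- ∑ s, e s) e)
  refine ⟨x' + l * z', π, q, p, by rw [← hprod]; exact hpd, fun c hc => ?_, ?_⟩
  · obtain ⟨ξ, ζ, h1, h2, rfl⟩ := hroots c hc
    rw [Polynomial.map_prod, map_prod]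
    refine Finset.prod_eq_zero (i := l) ?_ (shift_root54 ev (hF l) h1 h2)
    rw [Finset.mem_range, Nat.lt_succ_iff]
    have h3 : (ff.map ev).natDegree = ff.natDegree := natDegree_map_of_leadingCoeff_ne_zero ev hlcf
    have h4 : (sp (cst2 k₀ N Φ)).natDegree = Φ.natDegree := by
      rw [← hΦdeg]
      exact hΦc.natDegree_map _
    rwa [h3, h4] at hl
  · have hv : ∀ (p : (MvPolynomial (Fin N) k₀)[X]), p.leadingCoeff ∈ U →
        W.valuation (algebraMap k (AlgebraicClosure k) (p.map ev).leadingCoeff) = 1 := by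
      intro p hp
      rw [leadingCoeff_map_of_leadingCoeff_ne_zero ev (haU _ hp)]
      exact hWU _ hp
    refine hW W (fun i => ?_) (hv _ hlU) ?_ (fun i => ?_) (hv _ hDU) (fun s i => ?_)
      (fun s => hv _ (hNU s)) (fun i j => ?_) (fun i j => ?_) (fun i j => ?_) (fun s i j => ?_)
      (fun s i j => ?_) (fun s i j => ?_)
    · rw [coeff_map]; exact hWE _ (hEff i)
    · rw [discr_map_of_lc ev ff (by omega) hlcf]; exact hWU _ hdU
    · rw [coeff_map]; exact hWE _ (hED i)
    · simp only [coeff_map]; exact hWE _ (hEN s i)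
    · rw [hsp, sp2_coeff]; exact hWE _ (hEΦ i j)
    · rw [hsp, sp2_coeff]; exact hWE _ (hEA i j)
    · rw [hsp, sp2_coeff]; exact hWE _ (hEB i j)
    · simp only [hsp, sp2_coeff]; exact hWE _ (hEG s i j)
    · simp only [hsp, sp2_coeff]; exact hWE _ (hEG' s i j)
    · simp only [hsp, sp2_coeff]; exact hWE _ (hEG'' s i j)

end Pool.Agent.SE
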