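import Pool.Agent.Helper10.SE.Defs7
import Pool.Agent.Helper10.SE.R4

/-!
# Project SE, block CFA: plane models, the kernel of the evaluation, numerators, shifts

* `exists_shift54`: a polynomial which vanishes at `ξ + l ζ` for all `(ξ, ζ)` with `f(ξ) = 0`, `Φ(ξ, ζ) = 0`.
* `exists_plane54`: a plane model of a function field with a monic equation and its discriminant identity.
* `dvd_of_ThZ54`: the kernel of `k₀[A][X][Z] → K₀[A]` is generated by `Φ`.
* `exists_numZs54`: numerators of families of functions.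
-/

universe u

set_option linter.unusedSectionVars false

namespace Pool.Agent.SE

section PartF

open Polynomial Pool.Agent.TWH

theorem int_sum54 {L Q : Type u} [Field L] [CommRing Q] [Algebra L Q] {ξ ζ : Q} {f : L[X]}
    (hf : f ≠ 0) (h1 : aeval ξ f = 0) {Φ : L[X][X]} (hΦ : Φ.Monic)
    (h2 : eval₂ (aeval ξ : L[X] →ₐ[L] Q).toRingHom ζ Φ = 0) (l : ℕ) :
    IsIntegral L (ξ + (l : Q) * ζ) := by
  have hξ : IsIntegral L ξ := by
    rw [← isAlgebraic_iff_isIntegral]
    exact ⟨f, hf, h1⟩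
  have hAint : Algebra.IsIntegral L (Algebra.adjoin L {ξ}) := Algebra.IsIntegral.adjoin (by
    intro x hx
    rw [Set.mem_singleton_iff.1 hx]
    exact hξ)
  have hζ : IsIntegral (Algebra.adjoin L {ξ}) ζ := by
    let ρ : L[X] →+* Algebra.adjoin L {ξ} := (aeval ξ : L[X] →ₐ[L] Q).toRingHom.codRestrict
      (Algebra.adjoin L {ξ}) (fun p => by
        change aeval ξ p ∈ _
        exact aeval_mem_adjoin_singleton L ξ)
    refine ⟨Φ.map ρ, hΦ.map ρ, ?_⟩
    rw [eval₂_map]
    exact h2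
  have hζL : IsIntegral L ζ := isIntegral_trans (R := L) (A := Algebra.adjoin L {ξ}) _ hζ
  exact hξ.add ((isIntegral_natCast l).mul hζL)

/-- the case of a field -/
theorem exists_shiftF54 {L : Type u} [Field L] {f : L[X]} (hf : f ≠ 0) {Φ : L[X][X]}
    (hΦ : Φ.Monic) (l : ℕ) :
    ∃ (F : L[X]) (a b : L[X][X]), F ≠ 0 ∧
      eval₂ ((C : L[X] →+* L[X][X]).comp (C : L →+* L[X])) (C X + (l : L[X][X]) * X) F =
        a * C f + b * Φ := by
  obtain ⟨I, hI⟩ : ∃ I : Ideal L[X][X], I = Ideal.span {C f, Φ} := ⟨_, rfl⟩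
  have hf' : C f ∈ I := by rw [hI]; exact Ideal.subset_span (Or.inl rfl)
  have hΦ' : Φ ∈ I := by rw [hI]; exact Ideal.subset_span (Or.inr rfl)
  have hπC : ∀ p : L[X], aeval (Ideal.Quotient.mk I (C X)) p = Ideal.Quotient.mk I (C p) := by
    intro p
    induction p using Polynomial.induction_on' with
    | add p q hp hq => rw [map_add, map_add, map_add, hp, hq]
    | monomial n a =>
      rw [aeval_monomial, ← C_mul_X_pow_eq_monomial, map_mul, map_mul, map_pow, map_pow]
      rfl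
  obtain ⟨F, hFm, hF⟩ := int_sum54 (ξ := Ideal.Quotient.mk I (C X)) (ζ := Ideal.Quotient.mk I X) hf
    (by rw [hπC, Ideal.Quotient.eq_zero_iff_mem]; exact hf') hΦ (by
      have h1 : (aeval (Ideal.Quotient.mk I (C X)) : L[X] →ₐ[L] (L[X][X] ⧸ I)).toRingHom =
          (Ideal.Quotient.mk I).comp (C : L[X] →+* L[X][X]) := RingHom.ext fun p => hπC p
      rw [h1, ← hom_eval₂, eval₂_C_X, Ideal.Quotient.eq_zero_iff_mem]
      exact hΦ') l
  have hmem : eval₂ ((C : L[X] →+* L[X][X]).comp (C : L →+* L[X])) (C X + (l : L[X][X]) * X) F ∈ I := by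
    rw [← Ideal.Quotient.eq_zero_iff_mem, hom_eval₂, ← hF, map_add, map_mul, map_natCast]
    rfl
  rw [hI] at hmem
  obtain ⟨a, b, hab⟩ := Ideal.mem_span_pair.1 hmem
  exact ⟨F, a, b, hFm.ne_zero, hab.symm⟩

theorem exists_shiftQ54 {A L : Type u} [CommRing A] [IsDomain A] [Field L] [Algebra A L]
    [IsFractionRing A L] {f : A[X]} (hf : f ≠ 0) {Φ : A[X][X]} (hΦ : Φ.Monic) (l : ℕ) :
    ∃ (F : A[X]) (U V : A[X][X]), F ≠ 0 ∧
      eval₂ ((C : A[X] →+* A[X][X]).comp (C : A →+* A[X])) (C X + (l : A[X][X]) * X) F =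
        U * C f + V * Φ := by
  have hinj : Function.Injective (algebraMap A L) := IsFractionRing.injective A L
  have hinj2 : Function.Injective (mapRingHom (mapRingHom (algebraMap A L)) : A[X][X] →+* L[X][X]) :=
    map_injective _ (map_injective _ hinj)
  obtain ⟨F, a, b, hF0, hab⟩ := exists_shiftF54 (f := f.map (algebraMap A L))
    ((Polynomial.map_ne_zero_iff hinj).2 hf) (Φ := Φ.map (mapRingHom (algebraMap A L))) (hΦ.map _) l
  obtain ⟨b₁, F₁, hb₁, hF₁⟩ := clear1 (A := A) F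
  obtain ⟨b₂, U₁, hb₂, hU₁⟩ := clear2 (A := A) a
  obtain ⟨b₃, V₁, hb₃, hV₁⟩ := clear2 (A := A) b
  refine ⟨C (b₂ * b₃) * F₁, C (C (b₁ * b₃)) * U₁, C (C (b₁ * b₂)) * V₁, ?_, ?_⟩
  · refine mul_ne_zero (C_ne_zero.2 (mul_ne_zero hb₂ hb₃)) ?_
    rintro rfl
    rw [Polynomial.map_zero] at hF₁
    exact mul_ne_zero (C_ne_zero.2 ((map_ne_zero_iff _ hinj).2 hb₁)) hF0 hF₁.symm
  · apply hinj2
    have h1 : ∀ G : A[X], mapRingHom (mapRingHom (algebraMap A L))
        (eval₂ ((C : A[X] →+* A[X][X]).comp (C : A →+* A[X])) (C X + (l : A[X][X]) * X) G) =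
        eval₂ ((C : L[X] →+* L[X][X]).comp (C : L →+* L[X])) (C X + (l : L[X][X]) * X)
          (G.map (algebraMap A L)) := by
      intro G
      rw [hom_eval₂, eval₂_map]
      congr 1
      · refine RingHom.ext fun z => ?_
        simp
      · simp
    rw [h1, Polynomial.map_mul, hF₁, map_C, eval₂_mul, eval₂_mul, eval₂_C, eval₂_C, hab]
    simp only [map_add, map_mul, coe_mapRingHom, map_C, hU₁, hV₁, RingHom.comp_apply]
    ring

/-- A polynomial which vanishes at `ξ + l ζ` for all `(ξ, ζ)` with `f(ξ) = 0`, `Φ(ξ, ζ) = 0`, with certificate. -/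
theorem exists_shift54 {A : Type u} [CommRing A] [IsDomain A] {f : A[X]} (hf : f ≠ 0) {Φ : A[X][X]}
    (hΦ : Φ.Monic) (l : ℕ) :
    ∃ (F : A[X]) (U V : A[X][X]), F ≠ 0 ∧
      eval₂ ((C : A[X] →+* A[X][X]).comp (C : A →+* A[X])) (C X + (l : A[X][X]) * X) F =
        U * C f + V * Φ := exists_shiftQ54 (L := FractionRing A) hf hΦ l

end PartF

section PartK

open VC Polynomial Pool.Agent.LT Pool.Agent.SC Pool.Agent.GC Pool.Agent.Helper91.Sect Pool.Agent
  Pool.Agent.TWX Pool.Agent.TWT Pool.Agent.TWH Pool.Agent.TWU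

section plane

variable {k₀ K₀ : Type u} [Field k₀] [Field K₀] [Algebra k₀ K₀]

theorem ev2_C54 (x z : K₀) (p : k₀[X]) : ev2 x z (C p) = aeval x p := eval₂_C _ _

theorem ev2_X54 (x z : K₀) : ev2 (k := k₀) x z X = z := eval₂_X _ _

/-- algebraic over `k₀[X]` -/
theorem alg_poly54 {x : K₀} (hx : Transcendental k₀ x) {z : K₀}
    (hz : IsAlgebraic (IntermediateField.adjoin k₀ {x}) z) :
    ∃ p : k₀[X][X], p ≠ 0 ∧ ev2 x z p = 0 := by
  classical
  obtain ⟨P, hP0, hP⟩ := hz
  obtain ⟨D, hD, hq⟩ := exists_common_denominator hx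
    (P.support.image fun n => ((P.coeff n : IntermediateField.adjoin k₀ {x}) : K₀)) (by
      intro t ht
      obtain ⟨n, -, rfl⟩ := Finset.mem_image.1 ht
      exact SetLike.coe_mem _)
  choose! q hq using hq
  have hDx : aeval x D ≠ 0 := fun h0 => hD ((transcendental_iff.1 hx) D h0)
  have hqn : ∀ n ∈ P.support, ((P.coeff n : IntermediateField.adjoin k₀ {x}) : K₀) * aeval x D =
      aeval x (q ((P.coeff n : IntermediateField.adjoin k₀ {x}) : K₀)) := fun n hn =>
    hq _ (Finset.mem_image_of_mem (fun n => ((P.coeff n : IntermediateField.adjoin k₀ {x}) : K₀)) hn)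
  refine ⟨∑ n ∈ P.support, C (q ((P.coeff n : IntermediateField.adjoin k₀ {x}) : K₀)) * X ^ n, ?_, ?_⟩
  · intro h0
    obtain ⟨n, hn⟩ := Polynomial.support_nonempty.2 hP0
    have h1 := congrArg (fun p : k₀[X][X] => p.coeff n) h0
    simp only [finsetSum_coeff, coeff_C_mul, coeff_X_pow, coeff_zero] at h1
    rw [Finset.sum_eq_single n] at h1
    · rw [if_pos rfl, mul_one] at h1
      have h2 := hqn n hn
      rw [h1, map_zero] at h2
      have h3 : ((P.coeff n : IntermediateField.adjoin k₀ {x}) : K₀) ≠ 0 := by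
        rw [Ne, ZeroMemClass.coe_eq_zero]
        exact mem_support_iff.1 hn
      exact mul_ne_zero h3 hDx h2
    · intro m _ hm
      rw [if_neg (Ne.symm hm), mul_zero]
    · intro h
      exact absurd hn h
  · rw [map_sum]
    have h1 : ∀ n ∈ P.support, ev2 x z (C (q ((P.coeff n : IntermediateField.adjoin k₀ {x}) : K₀)) * X ^ n) =
        (algebraMap (IntermediateField.adjoin k₀ {x}) K₀ (P.coeff n) * z ^ n) * aeval x D := by
      intro n hn
      rw [map_mul, map_pow, ev2_C54, ev2_X54, ← hqn n hn]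
      change _ = ((P.coeff n : IntermediateField.adjoin k₀ {x}) : K₀) * z ^ n * aeval x D
      ring
    rw [Finset.sum_congr rfl h1, ← Finset.sum_mul]
    rw [aeval_def, eval₂_eq_sum, sum_def] at hP
    rw [hP, zero_mul]

/-- **A plane model** with a monic equation. -/
theorem exists_plane54 [CharZero k₀] (hK₀ : IsFunctionField k₀ K₀) {x : K₀}
    (hx : Transcendental k₀ x) :
    ∃ (z₀ : K₀) (Φ A B : k₀[X][X]) (D : k₀[X]), IntermediateField.adjoin k₀ {x, z₀} = ⊤ ∧
      Φ.Monic ∧ ev2 x z₀ Φ = 0 ∧ (∀ P : k₀[X][X], ev2 x z₀ P = 0 → Φ ∣ P) ∧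
      A * Φ + B * derivative Φ = C D ∧ D ≠ 0 := by
  classical
  have hfin := hK₀.finiteDimensional hx
  have hA0 : CharZero (IntermediateField.adjoin k₀ {x}) :=
    charZero_of_injective_algebraMap (algebraMap k₀ (IntermediateField.adjoin k₀ {x})).injective
  obtain ⟨z₁, hz₁⟩ := Field.exists_primitive_element (IntermediateField.adjoin k₀ {x}) K₀
  have hgen₁ : IntermediateField.adjoin k₀ {x, z₁} = ⊤ := by
    have h1 := IntermediateField.adjoin_adjoin_left k₀ ({x} : Set K₀) ({z₁} : Set K₀)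
    rw [hz₁, IntermediateField.restrictScalars_top] at h1
    rw [Set.insert_eq]
    exact h1.symm
  let iA : Algebra k₀[X] K₀ := (aeval x : k₀[X] →ₐ[k₀] K₀).toRingHom.toAlgebra
  have hmap : ∀ p : k₀[X], algebraMap k₀[X] K₀ p = aeval x p := fun _ => rfl
  have hinj : Function.Injective (algebraMap k₀[X] K₀) := transcendental_iff_injective.1 hx
  have hfaith : FaithfulSMul k₀[X] K₀ := (faithfulSMul_iff_algebraMap_injective _ _).2 hinj
  have htf : Module.IsTorsionFree k₀[X] K₀ := inferInstance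
  have haev : ∀ (z : K₀) (P : k₀[X][X]), aeval z P = ev2 x z P := fun _ _ => rfl
  have halg : IsAlgebraic k₀[X] z₁ := by
    obtain ⟨p, hp0, hp⟩ := alg_poly54 hx (Algebra.IsAlgebraic.isAlgebraic
      (R := IntermediateField.adjoin k₀ {x}) z₁)
    exact ⟨p, hp0, hp⟩
  obtain ⟨y, hy0, hint⟩ := halg.exists_integral_multiple
  have hsm : y • z₁ = aeval x y * z₁ := by rw [Algebra.smul_def, hmap]
  rw [hsm] at hint
  have hyx : aeval x y ≠ 0 := fun h0 => hy0 ((transcendental_iff.1 hx) y h0)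
  set z₀ := aeval x y * z₁ with hz₀
  have hΦm := minpoly.monic hint
  have hΦirr : Irreducible ((minpoly k₀[X] z₀).map (algebraMap k₀[X] (FractionRing k₀[X]))) :=
    (Monic.irreducible_iff_irreducible_map_fraction_map (K := FractionRing k₀[X]) hΦm).1
      (minpoly.irreducible hint)
  have hQ0 : CharZero (FractionRing k₀[X]) :=
    charZero_of_injective_algebraMap (IsFractionRing.injective k₀[X] (FractionRing k₀[X]))
  obtain ⟨a, b, hab⟩ := hΦirr.separable
  obtain ⟨b₁, A₁, hb₁, hA₁⟩ := clear1 (A := k₀[X]) a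
  obtain ⟨b₂, B₁, hb₂, hB₁⟩ := clear1 (A := k₀[X]) b
  refine ⟨z₀, minpoly k₀[X] z₀, C b₂ * A₁, C b₁ * B₁, b₁ * b₂, ?_, hΦm, minpoly.aeval k₀[X] z₀,
    fun P hP => minpoly.isIntegrallyClosed_dvd hint hP, ?_, mul_ne_zero hb₁ hb₂⟩
  · rw [eq_top_iff, ← hgen₁, IntermediateField.adjoin_le_iff]
    have hxM : x ∈ IntermediateField.adjoin k₀ {x, z₀} :=
      IntermediateField.subset_adjoin _ _ (Or.inl rfl)
    have hzM : z₀ ∈ IntermediateField.adjoin k₀ {x, z₀} :=
      IntermediateField.subset_adjoin _ _ (Or.inr rfl)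
    have hyM : aeval x y ∈ IntermediateField.adjoin k₀ {x, z₀} := by
      have h1 := aeval_mem_adjoin_singleton k₀ x (p := y)
      exact (Algebra.adjoin_le (S := (IntermediateField.adjoin k₀ {x, z₀}).toSubalgebra)
        (Set.singleton_subset_iff.2 hxM)) h1
    rintro w (hw | hw)
    · rw [hw]; exact hxM
    · rw [Set.mem_singleton_iff.1 hw]
      have h1 : z₁ = z₀ / aeval x y := by rw [hz₀]; field_simp
      rw [h1]
      exact div_mem hzM hyM
  · apply map_injective _ (IsFractionRing.injective k₀[X] (FractionRing k₀[X]))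
    rw [Polynomial.map_add, Polynomial.map_mul, Polynomial.map_mul, Polynomial.map_mul,
      Polynomial.map_mul, hA₁, hB₁, map_C, map_C, map_C, ← derivative_map, map_mul, C_mul]
    have h2 := congrArg (fun p => C (algebraMap k₀[X] (FractionRing k₀[X]) b₁) *
      C (algebraMap k₀[X] (FractionRing k₀[X]) b₂) * p) hab
    simp only [mul_one] at h2
    rw [← h2]
    ring

end plane

end PartK

section PartE

open VC Polynomial Pool.Agent.LT Pool.Agent.SC Pool.Agent.GC Pool.Agent.Helper91.Sect Pool.Agent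
  Pool.Agent.TWX Pool.Agent.TWT Pool.Agent.TWH Pool.Agent.TWU


section

variable {k₀ K₀ : Type u} [Field k₀] [Field K₀] [Algebra k₀ K₀] {N : ℕ}

/-- The ring homomorphism `k₀[A][X][Z] → K₀[A]`, `X ↦ x`, `Z ↦ z`. -/
noncomputable def ThZ (x z : K₀) (N : ℕ) : (MvPolynomial (Fin N) k₀)[X][X] →+* MvPolynomial (Fin N) K₀ :=
  eval₂RingHom (Th x N) (MvPolynomial.C z)

/-- The constants `k₀[X][Z] → k₀[A][X][Z]`. -/
noncomputable def cst2 (k₀ : Type u) [Field k₀] (N : ℕ) : k₀[X][X] →+* (MvPolynomial (Fin N) k₀)[X][X] :=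
  mapRingHom (mapRingHom MvPolynomial.C)

theorem ThZ_C (x z : K₀) (p : (MvPolynomial (Fin N) k₀)[X]) : ThZ x z N (C p) = Th x N p :=
  eval₂_C _ _

theorem ThZ_X (x z : K₀) : ThZ (k₀ := k₀) x z N X = MvPolynomial.C z := eval₂_X _ _

theorem cst2_C (p : k₀[X]) : cst2 k₀ N (C p) = C (p.map MvPolynomial.C) := map_C _

theorem cst2_X : cst2 k₀ N X = X := map_X _

theorem ThZ_cst (x z : K₀) (P : k₀[X][X]) :
    ThZ x z N (cst2 k₀ N P) = MvPolynomial.C (ev2 x z P) := by
  have h1 : (ThZ x z N).comp (cst2 k₀ N) = MvPolynomial.C.comp (ev2 x z) := by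
    apply Polynomial.ringHom_ext
    · intro p
      rw [RingHom.comp_apply, RingHom.comp_apply, cst2_C, ThZ_C, Th_map, ev2_C54]
    · rw [RingHom.comp_apply, RingHom.comp_apply, cst2_X, ThZ_X, ev2_X54]
  exact congrArg (fun f : k₀[X][X] →+* MvPolynomial (Fin N) K₀ => f P) h1

/-- the monomials -/
noncomputable def mn54 (k₀ : Type u) [Field k₀] {N : ℕ} (ν : Fin N →₀ ℕ) :
    (MvPolynomial (Fin N) k₀)[X][X] := C (C (MvPolynomial.monomial ν 1))

theorem ThZ_mn (x z : K₀) (ν : Fin N →₀ ℕ) :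
    ThZ x z N (mn54 k₀ ν) = MvPolynomial.monomial ν 1 := by
  rw [mn54, ThZ_C, Th_C, MvPolynomial.map_monomial, map_one]

/-- the expansion in the parameters -/
theorem exists_expand54 (P : (MvPolynomial (Fin N) k₀)[X][X]) :
    ∃ p : (Fin N →₀ ℕ) →₀ k₀[X][X], P = p.sum fun ν q => mn54 k₀ ν * cst2 k₀ N q := by
  classical
  have h0 : ∀ ν, mn54 k₀ ν * cst2 k₀ N 0 = 0 := fun ν => by rw [map_zero, mul_zero]
  have hadd : ∀ ν q q', mn54 k₀ ν * cst2 k₀ N (q + q') =
      mn54 k₀ ν * cst2 k₀ N q + mn54 k₀ ν * cst2 k₀ N q' := fun ν q q' => by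
    rw [map_add, mul_add]
  have key : ∀ P Q : (MvPolynomial (Fin N) k₀)[X][X],
      (∃ p : (Fin N →₀ ℕ) →₀ k₀[X][X], P = p.sum fun ν q => mn54 k₀ ν * cst2 k₀ N q) →
      (∃ p : (Fin N →₀ ℕ) →₀ k₀[X][X], Q = p.sum fun ν q => mn54 k₀ ν * cst2 k₀ N q) →
      ∃ p : (Fin N →₀ ℕ) →₀ k₀[X][X], P + Q = p.sum fun ν q => mn54 k₀ ν * cst2 k₀ N q := by
    rintro P Q ⟨p, rfl⟩ ⟨q, rfl⟩
    exact ⟨p + q, (Finsupp.sum_add_index' h0 hadd).symm⟩
  induction P using Polynomial.induction_on' with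
  | add P Q hP hQ => exact key _ _ hP hQ
  | monomial i P =>
    induction P using Polynomial.induction_on' with
    | add P Q hP hQ => rw [map_add]; exact key _ _ hP hQ
    | monomial j P =>
      induction P using MvPolynomial.induction_on' with
      | add P Q hP hQ => rw [map_add, map_add]; exact key _ _ hP hQ
      | monomial ν c =>
        refine ⟨Finsupp.single ν (monomial i (monomial j c)), ?_⟩
        rw [Finsupp.sum_single_index (h0 ν)]
        simp only [mn54, cst2, coe_mapRingHom, map_monomial, C_mul_monomial]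
        rw [mul_comm (MvPolynomial.monomial ν 1), MvPolynomial.C_mul_monomial, mul_one]

/-- **The kernel.** -/
theorem dvd_of_ThZ54 {x z : K₀} {Φ : k₀[X][X]} (hΦ : ∀ P : k₀[X][X], ev2 x z P = 0 → Φ ∣ P)
    {P : (MvPolynomial (Fin N) k₀)[X][X]} (hP : ThZ x z N P = 0) : cst2 k₀ N Φ ∣ P := by
  classical
  obtain ⟨p, rfl⟩ := exists_expand54 P
  have h1 : ∀ ν, ev2 x z (p ν) = 0 := by
    intro ν
    have h2 := congrArg (MvPolynomial.coeff ν) hP
    rw [Finsupp.sum, map_sum, MvPolynomial.coeff_sum, MvPolynomial.coeff_zero] at h2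
    have h3 : ∀ μ ∈ p.support, MvPolynomial.coeff ν (ThZ x z N (mn54 k₀ μ * cst2 k₀ N (p μ))) =
        if μ = ν then ev2 x z (p μ) else 0 := by
      intro μ _
      rw [map_mul, ThZ_mn, ThZ_cst, mul_comm, MvPolynomial.C_mul_monomial, mul_one,
        MvPolynomial.coeff_monomial]
    rw [Finset.sum_congr rfl h3, Finset.sum_ite_eq'] at h2
    by_cases h4 : ν ∈ p.support
    · rwa [if_pos h4] at h2
    · rw [Finsupp.notMem_support_iff.1 h4, map_zero]
  rw [Finsupp.sum]
  refine Finset.dvd_sum fun ν _ => ?_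
  obtain ⟨c, hc⟩ := hΦ _ (h1 ν)
  refine ⟨mn54 k₀ ν * cst2 k₀ N c, ?_⟩
  rw [hc, map_mul]
  ring

/-- numerators of elements of `K₀` -/
theorem exists_num2_54 [CharZero k₀] (hK₀ : IsFunctionField k₀ K₀) {x z₀ : K₀}
    (hx : Transcendental k₀ x) (hgen : IntermediateField.adjoin k₀ {x, z₀} = ⊤) (t : K₀) :
    ∃ (d : k₀[X]) (q : k₀[X][X]), d ≠ 0 ∧ ev2 x z₀ q = aeval x d * t := by
  classical
  have hfin := hK₀.finiteDimensional hx
  have htop : IntermediateField.adjoin (IntermediateField.adjoin k₀ {x}) {z₀} = ⊤ := by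
    have h4 : (IntermediateField.adjoin (IntermediateField.adjoin k₀ {x}) {z₀}).restrictScalars k₀ =
        IntermediateField.adjoin k₀ {x, z₀} := by
      rw [IntermediateField.adjoin_adjoin_left]
      rfl
    rw [eq_top_iff]
    intro a _
    have h5 : a ∈ (IntermediateField.adjoin (IntermediateField.adjoin k₀ {x})
        {z₀}).restrictScalars k₀ := by
      rw [h4, hgen]
      trivial
    exact h5
  have hzalg : IsAlgebraic (IntermediateField.adjoin k₀ {x}) z₀ := Algebra.IsAlgebraic.isAlgebraic z₀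
  obtain ⟨P, hP⟩ : ∃ P : (IntermediateField.adjoin k₀ {x})[X], aeval z₀ P = t := by
    have h1 : t ∈ (IntermediateField.adjoin (IntermediateField.adjoin k₀ {x}) {z₀}).toSubalgebra := by
      rw [htop]
      trivial
    rw [IntermediateField.adjoin_simple_toSubalgebra_of_isAlgebraic hzalg,
      Algebra.adjoin_singleton_eq_range_aeval] at h1
    exact h1
  obtain ⟨D, hD, hq⟩ := exists_common_denominator hx
    (P.support.image fun n => ((P.coeff n : IntermediateField.adjoin k₀ {x}) : K₀)) (by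
      intro t ht
      obtain ⟨n, -, rfl⟩ := Finset.mem_image.1 ht
      exact SetLike.coe_mem _)
  choose! q hq using hq
  refine ⟨D, ∑ n ∈ P.support, C (q ((P.coeff n : IntermediateField.adjoin k₀ {x}) : K₀)) * X ^ n, hD, ?_⟩
  have hP' : t = ∑ n ∈ P.support, algebraMap _ K₀ (P.coeff n) * z₀ ^ n := by
    rw [← hP, aeval_def, eval₂_eq_sum, sum_def]
  rw [map_sum, hP', Finset.mul_sum]
  refine Finset.sum_congr rfl fun n hn => ?_
  rw [map_mul, map_pow, ev2_C54, ev2_X54, ← hq _ (Finset.mem_image_of_mem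
    (fun n => ((P.coeff n : IntermediateField.adjoin k₀ {x}) : K₀)) hn)]
  change ((P.coeff n : IntermediateField.adjoin k₀ {x}) : K₀) * aeval x D * z₀ ^ n =
    aeval x D * (((P.coeff n : IntermediateField.adjoin k₀ {x}) : K₀) * z₀ ^ n)
  ring

/-- numerators of families -/
theorem exists_numZ54 [CharZero k₀] (hK₀ : IsFunctionField k₀ K₀) {x z₀ : K₀}
    (hx : Transcendental k₀ x) (hgen : IntermediateField.adjoin k₀ {x, z₀} = ⊤)
    (G : MvPolynomial (Fin N) K₀) :
    ∃ (d : k₀[X]) (n : (MvPolynomial (Fin N) k₀)[X][X]), d ≠ 0 ∧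
      ThZ x z₀ N n = MvPolynomial.C (aeval x d) * G := by
  classical
  induction G using MvPolynomial.induction_on' with
  | monomial ν t =>
    obtain ⟨d, q, hd, hq⟩ := exists_num2_54 hK₀ hx hgen t
    refine ⟨d, mn54 k₀ ν * cst2 k₀ N q, hd, ?_⟩
    rw [map_mul, ThZ_mn, ThZ_cst, hq, mul_comm, MvPolynomial.C_mul_monomial,
      MvPolynomial.C_mul_monomial, mul_one]
  | add G G' hG hG' =>
    obtain ⟨d, n, hd, hn⟩ := hG
    obtain ⟨d', n', hd', hn'⟩ := hG'
    refine ⟨d * d', cst2 k₀ N (C d') * n + cst2 k₀ N (C d) * n', mul_ne_zero hd hd', ?_⟩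
    rw [map_add, map_mul, map_mul, ThZ_cst, ThZ_cst, hn, hn', ev2_C54, ev2_C54, map_mul, map_mul]
    ring

/-- numerators of finitely many families, common denominator -/
theorem exists_numZs54 [CharZero k₀] (hK₀ : IsFunctionField k₀ K₀) {x z₀ : K₀}
    (hx : Transcendental k₀ x) (hgen : IntermediateField.adjoin k₀ {x, z₀} = ⊤) {r : ℕ}
    (G : Fin r → MvPolynomial (Fin N) K₀) :
    ∃ (d : k₀[X]) (n : Fin r → (MvPolynomial (Fin N) k₀)[X][X]), d ≠ 0 ∧
      ∀ s, ThZ x z₀ N (n s) = MvPolynomial.C (aeval x d) * G s := by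
  classical
  choose d n hd hn using fun s => exists_numZ54 hK₀ hx hgen (G s)
  refine ⟨∏ s, d s, fun s => cst2 k₀ N (C (∏ s' ∈ Finset.univ.erase s, d s')) * n s,
    Finset.prod_ne_zero_iff.2 fun s _ => hd s, fun s => ?_⟩
  rw [map_mul, ThZ_cst, ev2_C54, hn, ← mul_assoc, ← map_mul, ← map_mul,
    Finset.prod_erase_mul _ _ (Finset.mem_univ s)]

end

end PartE

end Pool.Agent.SE
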