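import Pool.Agent.Helper54.SE.CFA0

/-!
# Project SE, block CFA: good coordinates from a plane model, the certificates
-/

universe u

set_option linter.unusedSectionVars false

namespace Pool.Agent.SE

open VC Polynomial Pool.Agent.LT Pool.Agent.SC Pool.Agent.GC Pool.Agent.Helper91.Sect Pool.Agent
  Pool.Agent.TWX Pool.Agent.TWT Pool.Agent.TWH Pool.Agent.TWU

/-- A plane model with finitely many functions, and a polynomial `f` whose roots contain the bad points. -/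
structure PlD54 {k K₁ : Type u} [Field k] [Field K₁] [Algebra k K₁] (x z : K₁) (Φ A B : k[X][X])
    (D : k[X]) {r : ℕ} (G G' G'' : Fin r → k[X][X]) (Nm : Fin r → k[X]) (f R : k[X]) (b : k) (M : ℕ) :
    Prop where
  ff : IsFunctionField k K₁
  x_tr : Transcendental k x
  gen : IntermediateField.adjoin k {x, z} = ⊤
  monic : Φ.Monic
  root : ev2 x z Φ = 0
  bez : A * Φ + B * derivative Φ = C D
  idn : ∀ s, G s * G' s + Φ * G'' s = C (Nm s)
  deg : 1 ≤ f.natDegree
  sep : f.Separable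
  b_ne : b ≠ 0
  rad : (D * ∏ s, Nm s) * R = C b * f ^ M

section k

variable {k K₁ : Type u} [Field k] [Field K₁] [Algebra k K₁] {x z : K₁} {Φ A B : k[X][X]}
    {D : k[X]} {r : ℕ} {G G' G'' : Fin r → k[X][X]} {Nm : Fin r → k[X]} {f R : k[X]} {b : k} {M : ℕ}

theorem PlD54.prod_ne (h : PlD54 x z Φ A B D G G' G'' Nm f R b M) :
    D ≠ 0 ∧ ∀ s, Nm s ≠ 0 := by
  have h1 : C b * f ^ M ≠ 0 := mul_ne_zero (C_ne_zero.2 h.b_ne) (pow_ne_zero _
    (ne_zero_of_natDegree_gt (n := 0) (by have := h.deg; omega)))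
  rw [← h.rad] at h1
  exact ⟨left_ne_zero_of_mul (left_ne_zero_of_mul h1), fun s =>
    Finset.prod_ne_zero_iff.1 (right_ne_zero_of_mul (left_ne_zero_of_mul h1)) s (Finset.mem_univ _)⟩

theorem PlD54.root_dvd (h : PlD54 x z Φ A B D G G' G'' Nm f R b M) {p : k[X]}
    (hp : p ∣ D * ∏ s, Nm s) {c : AlgebraicClosure k} (hc : aeval c p = 0) : aeval c f = 0 := by
  obtain ⟨q, hq⟩ := hp
  have h1 := congrArg (aeval c) h.rad
  rw [map_mul, hq, map_mul, hc, zero_mul, zero_mul, map_mul, aeval_C, map_pow] at h1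
  have h2 : algebraMap k (AlgebraicClosure k) b ≠ 0 := (_root_.map_ne_zero _).2 h.b_ne
  by_contra h3
  exact mul_ne_zero h2 (pow_ne_zero M h3) h1.symm

theorem PlD54.val_G (h : PlD54 x z Φ A B D G G' G'' Nm f R b M) (s : Fin r) :
    ev2 x z (G s) * ev2 x z (G' s) = aeval x (Nm s) := by
  have h1 := congrArg (ev2 x z) (h.idn s)
  rw [map_add, map_mul, map_mul, h.root, zero_mul, add_zero, ev2_C54] at h1
  exact h1

theorem PlD54.G_ne (h : PlD54 x z Φ A B D G G' G'' Nm f R b M) (s : Fin r) :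
    ev2 x z (G s) ≠ 0 := by
  intro h0
  have h1 := h.val_G s
  rw [h0, zero_mul] at h1
  exact h.prod_ne.2 s ((transcendental_iff.1 h.x_tr) _ h1.symm)

/-- **Good coordinates.** -/
theorem PlD54.coord (h : PlD54 x z Φ A B D G G' G'' Nm f R b M) {S : Finset k}
    (hS1 : ∀ p ∈ ({f, R, D} : Set k[X]) ∪ Set.range Nm, ∀ i, p.coeff i ∈ S)
    (hS2 : ∀ p ∈ ({Φ, A, B} : Set k[X][X]) ∪ (Set.range G ∪ Set.range G'), ∀ i j,
      (p.coeff i).coeff j ∈ S)
    (hb : b ∈ S) (hb' : b⁻¹ ∈ S) (e : Fin r → ℤ) :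
    Coord (∏ s, ev2 x z (G s) ^ e s) x z f S := by
  classical
  refine ⟨Finset.prod_ne_zero_iff.2 fun s _ => zpow_ne_zero _ (h.G_ne s), h.ff, h.x_tr, h.gen, h.deg,
    h.sep, ?_⟩
  intro Ω _ _ P hP hxP hfP
  set φ : K₁ →+* Ω := algebraMap K₁ Ω with hφ
  have hle : ∀ {w : Ω}, w ∈ P ↔ P.valuation w ≤ 1 := fun {w} => (P.valuation_le_one_iff w).symm
  -- polynomials in one variable
  have hval : ∀ p : k[X], (∀ i, p.coeff i ∈ S) → φ (aeval x p) ∈ P := by
    intro p hp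
    rw [aeval_eq_sum_range, map_sum]
    refine P.toSubring.sum_mem fun i _ => ?_
    rw [Algebra.smul_def, map_mul, map_pow]
    exact P.toSubring.mul_mem (hP _ (hp i)) (P.toSubring.pow_mem hxP i)
  have hvf := hval f (hS1 f (Or.inl (Or.inl rfl)))
  have hvR := hval R (hS1 R (Or.inl (Or.inr (Or.inl rfl))))
  have hvD := hval D (hS1 D (Or.inl (Or.inr (Or.inr rfl))))
  have hvN : ∀ s, φ (aeval x (Nm s)) ∈ P := fun s => hval _ (hS1 _ (Or.inr ⟨s, rfl⟩))
  have hval1 : ∀ {a b : P.ValueGroup}, a ≤ 1 → b ≤ 1 → a * b = 1 → a = 1 ∧ b = 1 := by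
    intro a b ha hb hab
    have h1 : a * b ≤ a := mul_le_of_le_one_right' hb
    have h2 : a * b ≤ b := mul_le_of_le_one_left' ha
    rw [hab] at h1 h2
    exact ⟨le_antisymm ha h1, le_antisymm hb h2⟩
  have hf1 : P.valuation (φ (aeval x f)) = 1 := by
    rw [ValuationSubring.mem_nonunits_iff, not_lt] at hfP
    exact le_antisymm (hle.1 hvf) hfP
  have hb1 : P.valuation (φ (algebraMap k K₁ b)) = 1 := by
    have h1 := hle.1 (hP b hb)
    have h2 := hle.1 (hP _ hb')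
    rw [map_inv₀, map_inv₀, map_inv₀] at h2
    have h3 : P.valuation (φ (algebraMap k K₁ b)) ≠ 0 :=
      (Valuation.ne_zero_iff _).2 ((_root_.map_ne_zero _).2 ((_root_.map_ne_zero _).2 h.b_ne))
    exact le_antisymm h1 ((inv_le_one₀ (zero_lt_iff.2 h3)).1 h2)
  have hprod : P.valuation (φ (aeval x D)) * (∏ s, P.valuation (φ (aeval x (Nm s)))) *
      P.valuation (φ (aeval x R)) = 1 := by
    have h1 := congrArg (fun p => P.valuation (φ (aeval x p))) h.rad
    simp only [map_mul, map_pow, map_prod, aeval_C] at h1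
    rw [h1, hf1, hb1, one_pow, one_mul]
  have hlep : ∏ s, P.valuation (φ (aeval x (Nm s))) ≤ 1 :=
    Finset.prod_le_one' fun s _ => hle.1 (hvN s)
  obtain ⟨h1, -⟩ := hval1 (mul_le_one' (hle.1 hvD) hlep) (hle.1 hvR) hprod
  obtain ⟨hD1, hp1⟩ := hval1 (hle.1 hvD) hlep h1
  have hN1 : ∀ s, P.valuation (φ (aeval x (Nm s))) = 1 := by
    intro s
    have h3 := hp1
    rw [← Finset.mul_prod_erase _ _ (Finset.mem_univ s)] at h3
    exact (hval1 (hle.1 (hvN s)) (Finset.prod_le_one' fun s _ => hle.1 (hvN s)) h3).1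
  -- polynomials in two variables
  set i : k[X] →+* Ω := φ.comp (aeval x : k[X] →ₐ[k] K₁).toRingHom with hi
  have hcoef : ∀ p : k[X][X], (∀ i j, (p.coeff i).coeff j ∈ S) → ∀ n, (p.map i).coeff n ∈ P := by
    intro p hp n
    rw [coeff_map]
    exact hval _ (hp n)
  have hcm := hcoef Φ (hS2 Φ (Or.inl (Or.inl rfl)))
  have hcA := hcoef A (hS2 A (Or.inl (Or.inr (Or.inl rfl))))
  have hcB := hcoef B (hS2 B (Or.inl (Or.inr (Or.inr rfl))))
  have heval : ∀ p : k[X][X], (p.map i).eval (φ z) = φ (ev2 x z p) := by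
    intro p
    rw [hi, ← map_map, eval_map, eval₂_at_apply, eval_map]
    rfl
  obtain ⟨mP, hmP1, hmP2⟩ := exists_lift_monic P (Φ.map i) (h.monic.map i) hcm
  have hzP : φ z ∈ P := by
    apply mem_of_root P hmP2
    rw [hmP1, heval, h.root, map_zero]
  have hval2 : ∀ p : k[X][X], (∀ i j, (p.coeff i).coeff j ∈ S) → φ (ev2 x z p) ∈ P := by
    intro p hp
    rw [← heval, eval_eq_sum_range]
    refine P.toSubring.sum_mem fun n _ => ?_
    exact P.toSubring.mul_mem (hcoef p hp n) (P.toSubring.pow_mem hzP n)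
  have hG1 : ∀ s, P.valuation (φ (ev2 x z (G s))) = 1 := by
    intro s
    have h3 := congrArg (fun w => P.valuation (φ w)) (h.val_G s)
    simp only [map_mul] at h3
    rw [hN1] at h3
    exact (hval1 (hle.1 (hval2 _ (hS2 _ (Or.inr (Or.inl ⟨s, rfl⟩)))))
      (hle.1 (hval2 _ (hS2 _ (Or.inr (Or.inr ⟨s, rfl⟩))))) h3).1
  have hgu' : P.valuation (φ (∏ s, ev2 x z (G s) ^ e s)) = 1 := by
    rw [map_prod, map_prod]
    refine Finset.prod_eq_one fun s _ => ?_
    rw [map_zpow₀, map_zpow₀, hG1, one_zpow]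
  refine ⟨hle.2 hgu'.le, ?_, hzP, fun σ hσk hσx hσz => ?_⟩
  · rw [ValuationSubring.mem_nonunits_iff, hgu']
    exact lt_irrefl _
  -- the automorphisms
  obtain ⟨bP, hbP⟩ := exists_lift P (B.map i) hcB
  obtain ⟨aP, haP⟩ := exists_lift P (A.map i) hcA
  have hinj := IsFractionRing.injective P Ω
  have hup : ∀ (q : P[X]), algebraMap P Ω (q.eval ⟨φ z, hzP⟩) =
      (q.map (algebraMap P Ω)).eval (φ z) := by
    intro q
    rw [eval_map]
    exact (eval₂_at_apply (algebraMap P Ω) (⟨φ z, hzP⟩ : P)).symm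
  have hmz0 : mP.eval ⟨φ z, hzP⟩ = 0 := by
    apply hinj
    rw [hup, hmP1, heval, h.root, map_zero, map_zero]
  -- `D(x)` as a unit of `P`
  have hDinv : (φ (aeval x D))⁻¹ ∈ P := by
    rw [hle, map_inv₀, hD1, inv_one]
  have hDne : φ (aeval x D) ≠ 0 := by
    intro h0
    rw [h0, map_zero] at hD1
    exact zero_ne_one hD1
  have hbm : (C (⟨(φ (aeval x D))⁻¹, hDinv⟩ : P) * bP).eval ⟨φ z, hzP⟩ *
      mP.derivative.eval ⟨φ z, hzP⟩ = 1 := by
    apply hinj
    rw [map_mul, hup, hup, ← derivative_map, hmP1, Polynomial.map_mul, hbP, map_C, derivative_map,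
      eval_mul, eval_C, heval, heval, map_one]
    have h3 := congrArg (ev2 x z) h.bez
    rw [map_add, map_mul, map_mul, h.root, mul_zero, zero_add, ev2_C54] at h3
    have h4 : algebraMap P Ω (⟨(φ (aeval x D))⁻¹, hDinv⟩ : P) = (φ (aeval x D))⁻¹ := rfl
    rw [h4, mul_assoc, ← map_mul, h3, inv_mul_cancel₀ hDne]
  refine root_fixed P (m := mP) (b := C (⟨(φ (aeval x D))⁻¹, hDinv⟩ : P) * bP) ⟨φ z, hzP⟩ hmz0 hbm
    (σ (φ z)) ?_ hσz
  rw [hmP1]
  have hσi : ∀ q : k[X], σ (i q) = i q := by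
    intro q
    change σ (φ (aeval x q)) = φ (aeval x q)
    rw [aeval_eq_sum_range, map_sum, map_sum]
    refine Finset.sum_congr rfl fun n _ => ?_
    rw [Algebra.smul_def, map_mul, map_pow, map_mul, map_pow, hσk, hσx]
  have h5 : (Φ.map i).map σ = Φ.map i := by
    ext n
    rw [coeff_map, coeff_map, hσi]
  have h6 : (Φ.map i).eval (φ z) = 0 := by rw [heval, h.root, map_zero]
  rw [← h5, eval_map, eval₂_at_apply, h6, map_zero]

end k

end Pool.Agent.SE
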