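import Pool.Agent.Helper10.SE.Defs5

/-!
# Project SE, block EP: the data of one member of the family in the common field; translation of the variable

As in `TWT.E4`, `UT.R2`, `UT.E5`, for the parameters `Q ⊕ Fin (m + 1)`.
-/

universe u v w

namespace Pool.Agent.SE

open IntermediateField Pool.Agent.OPN Pool.Agent.Helper37.UL UL TH Pool.Agent.OPG Pool.Agent.UT

/-- What a member of the family over a composite field gives in the common algebraically closed field `C`; `Fc` is its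
field of constants. -/
def LocP {k₀ C : Type u} [Field k₀] [Field C] (FC Ω₀ FB : Subfield C) {Q : Type} {m : ℕ}
    (w : Fin (m + 1) → k₀) (P : ∀ (k' : Type u) [Field k'], (k₀ →+* k') → (Option Q → k') → Prop)
    (σ : k₀ →+* C) (b : Q ⊕ Fin (m + 1) → C) (Fc Kc : Subfield C) : Prop :=
  FC ≤ Fc ∧ Fc ≤ Ω₀ ∧ (∀ p, b p ∈ Fc) ∧ (∀ x, σ x ∈ Kc) ∧ Fc ≤ Kc ∧
  Kc ≤ ad Fc (Set.range σ) ∧
  ∃ (k₁ k' : Type u) (_ : Field k₁) (_ : CharZero k₁) (_ : Field k') (_ : Algebra k₁ k') (T' : k')
    (ψ : AlgebraicClosure k' →+* C) (ι' : k₀ →+* k') (f' : Option Q → k'),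
    (∃ S : Finset k₁, Subfield.closure (S : Set k₁) = ⊤) ∧
    FiniteDimensional (adjoin k₁ {T'}) k' ∧
    Kc = (ψ.comp (algebraMap k' (AlgebraicClosure k'))).fieldRange ∧
    (∀ a : k₁, ψ (algebraMap k' (AlgebraicClosure k') (algebraMap k₁ k' a)) ∈ FB) ∧
    (∀ x, σ x = ψ (algebraMap k' (AlgebraicClosure k') (ι' x))) ∧
    (∑ e, b (Sum.inr e) * σ (w e) = ψ (algebraMap k' (AlgebraicClosure k') (f' none))) ∧
    (∀ q, b (Sum.inl q) = ψ (algebraMap k' (AlgebraicClosure k') (f' (some q)))) ∧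
    P k' ι' f'

/-- **The data of one member of the family.** -/
theorem exists_locP {F₀ k₀ : Type u} [Field F₀] [CharZero F₀] [Field k₀] [Algebra F₀ k₀] {n : ℕ}
    {s : Fin n → k₀} {T q : k₀} (hb : IsTranscendenceBasis F₀ (Sum.elim s fun _ : Unit => T))
    (hq : IsAlgebraic (ad (gn (algebraMap F₀ k₀).fieldRange s) {T}) q)
    (htop : ad (gn (algebraMap F₀ k₀).fieldRange s) {T, q} = ⊤)
    {C : Type u} [Field C] [Algebra F₀ C] [IsAlgClosed C] {y : ℕ ⊕ (Fin n ⊕ Unit) → C}
    (hy : AlgebraicIndependent F₀ y) {Q : Type} {m : ℕ} {w : Fin (m + 1) → k₀}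
    {P : ∀ (k' : Type u) [Field k'], (k₀ →+* k') → (Option Q → k') → Prop}
    {F k : Type u} [Field F] [Field k] [Algebra F₀ F] [Algebra F k] [Algebra k₀ k] [Algebra F₀ k]
    [IsScalarTower F₀ F k] [IsScalarTower F₀ k₀ k]
    (hF : ∃ S : Finset F, Subfield.closure (S : Set F) = ⊤)
    (hk : adjoin F (Set.range (algebraMap k₀ k)) = ⊤)
    (hfree : ∀ {n : ℕ} {x : Fin n → k₀}, AlgebraicIndependent F₀ x →
      AlgebraicIndependent F (algebraMap k₀ k ∘ x)) {a : Q ⊕ Fin (m + 1) → F}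
    (hP : P k (algebraMap k₀ k) (prm (algebraMap k₀ k ∘ w) a))
    {Φ : Polynomial (MvPolynomial (Q ⊕ Fin (m + 1)) F₀)}
    (hΦ : ∀ x : F, Polynomial.eval₂ (aeR a) x Φ ≠ 0) :
    ∃ (σ : k₀ →+* C) (b : Q ⊕ Fin (m + 1) → C) (Fc Kc : Subfield C),
      (∀ c : F₀, σ (algebraMap F₀ k₀ c) = algebraMap F₀ C c) ∧
      (∀ i, σ (Sum.elim s (fun _ : Unit => T) i) = y (Sum.inr i)) ∧
      (∀ x ∈ Fc, Polynomial.eval₂ (aeR b) x Φ ≠ 0) ∧
      LocP (algebraMap F₀ C).fieldRange
        (acl (gn (algebraMap F₀ C).fieldRange fun i : ℕ => y (Sum.inl i)))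
        (acl (gn (acl (gn (algebraMap F₀ C).fieldRange fun i : ℕ => y (Sum.inl i)))
          fun i : Fin n => y (Sum.inr (Sum.inl i)))) w P σ b Fc Kc := by
  classical
  have hfree' : AlgebraicIndependent F (algebraMap k₀ k ∘ Sum.elim s fun _ : Unit => T) := by
    obtain ⟨N, ⟨e⟩⟩ := Finite.exists_equiv_fin (Fin n ⊕ Unit)
    have h1 : AlgebraicIndependent F₀ ((Sum.elim s fun _ : Unit => T) ∘ e.symm) :=
      hb.1.comp _ e.symm.injective
    have h2 := (hfree h1).comp e e.injective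
    convert h2 using 1
    funext i
    simp only [Function.comp_apply, Equiv.symm_apply_apply]
  obtain ⟨ψ, hψ0, hψF, hψb⟩ := per hb hy hF hk hfree'
  set Ω₀ : Subfield C := acl (gn (algebraMap F₀ C).fieldRange fun i : ℕ => y (Sum.inl i)) with hΩ₀
  set Ω : Subfield C := acl (gn Ω₀ fun i : Fin n => y (Sum.inr (Sum.inl i))) with hΩ
  let ψk : k →+* C := ψ.comp (algebraMap k (AlgebraicClosure k))
  let ψF : F →+* C := ψk.comp (algebraMap F k)
  let σ : k₀ →+* C := ψk.comp (algebraMap k₀ k)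
  have hσ0 : ∀ c : F₀, σ (algebraMap F₀ k₀ c) = algebraMap F₀ C c := by
    intro c
    change ψ (algebraMap k (AlgebraicClosure k) (algebraMap k₀ k (algebraMap F₀ k₀ c))) = _
    rw [← IsScalarTower.algebraMap_apply F₀ k₀ k]
    exact hψ0 c
  have hψF0 : ∀ c : F₀, ψF (algebraMap F₀ F c) = algebraMap F₀ C c := by
    intro c
    change ψ (algebraMap k (AlgebraicClosure k) (algebraMap F k (algebraMap F₀ F c))) = _
    rw [← IsScalarTower.algebraMap_apply F₀ F k]
    exact hψ0 c
  have hk0 : CharZero k := charZero_of_injective_algebraMap (algebraMap F₀ k).injective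
  have hbot : (⊤ : Subfield k) = ad (algebraMap F k).fieldRange (Set.range (algebraMap k₀ k)) := by
    rw [← adjoin_sub, hk]
    rfl
  refine ⟨σ, fun p => ψF (a p), ψF.fieldRange, ψk.fieldRange, hσ0, fun i => hψb i, ?_, ?_, ?_,
    fun p => ⟨a p, rfl⟩, fun x => ⟨_, rfl⟩, ?_, ?_, ?_⟩
  · rintro _ ⟨x, rfl⟩
    have h1 : Polynomial.eval₂ (aeR fun p => ψF (a p)) (ψF x) Φ =
        ψF (Polynomial.eval₂ (aeR a) x Φ) := by
      rw [Polynomial.hom_eval₂]
      congr 1
      refine MvPolynomial.ringHom_ext (fun c => ?_) fun p => ?_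
      · change MvPolynomial.aeval _ (MvPolynomial.C c) = ψF (MvPolynomial.aeval a (MvPolynomial.C c))
        rw [MvPolynomial.aeval_C, MvPolynomial.aeval_C, hψF0]
      · change MvPolynomial.aeval _ (MvPolynomial.X p) = ψF (MvPolynomial.aeval a (MvPolynomial.X p))
        rw [MvPolynomial.aeval_X, MvPolynomial.aeval_X]
    rw [h1]
    exact (map_ne_zero ψF).2 (hΦ x)
  · rintro _ ⟨c, rfl⟩
    exact ⟨algebraMap F₀ F c, hψF0 c⟩
  · rintro _ ⟨c, rfl⟩
    exact hψF c
  · rintro _ ⟨x, rfl⟩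
    exact ⟨algebraMap F k x, rfl⟩
  · rintro _ ⟨x, rfl⟩
    have h1 : ad (algebraMap F k).fieldRange (Set.range (algebraMap k₀ k)) ≤
        (ad ψF.fieldRange (Set.range σ)).comap ψk := by
      refine ad_le ?_ ?_
      · rintro _ ⟨c, rfl⟩
        exact le_ad ⟨c, rfl⟩
      · rintro _ ⟨c, rfl⟩
        exact mem_ad ⟨c, rfl⟩
    rw [← hbot] at h1
    exact h1 (Subfield.mem_top x)
  · let g : Fin n → k := algebraMap k₀ k ∘ s
    let k₁ : IntermediateField F k := adjoin F (Set.range g)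
    have hk₁ := RR.fg_adjoin hF g
    have hF0 : CharZero F := charZero_of_injective_algebraMap (algebraMap F₀ F).injective
    have hk₁0 : CharZero k₁ := charZero_of_injective_algebraMap (algebraMap F k₁).injective
    let T' : k := algebraMap k₀ k T
    let q' : k := algebraMap k₀ k q
    have hk₁sub : k₁.toSubfield = ad (algebraMap F k).fieldRange (Set.range g) := adjoin_sub _
    -- the image of the small field
    have hA : ∀ x ∈ gn (algebraMap F₀ k₀).fieldRange s, algebraMap k₀ k x ∈ k₁ := by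
      intro x hx
      have h1 : gn (algebraMap F₀ k₀).fieldRange s ≤ k₁.toSubfield.comap (algebraMap k₀ k) := by
        refine gn_le ?_ ?_
        · rintro _ ⟨c, rfl⟩
          change algebraMap k₀ k (algebraMap F₀ k₀ c) ∈ k₁
          rw [← IsScalarTower.algebraMap_apply F₀ k₀ k, IsScalarTower.algebraMap_apply F₀ F k]
          exact k₁.algebraMap_mem _
        · intro i
          exact subset_adjoin F _ ⟨i, rfl⟩
      exact h1 hx
    let KT : IntermediateField k₁ k := adjoin k₁ {T'}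
    have hA2 : ∀ x ∈ ad (gn (algebraMap F₀ k₀).fieldRange s) {T},
        algebraMap k₀ k x ∈ KT.toSubfield := by
      intro x hx
      have h1 : ad (gn (algebraMap F₀ k₀).fieldRange s) {T} ≤
          KT.toSubfield.comap (algebraMap k₀ k) := by
        refine ad_le (fun z hz => ?_) ?_
        · exact KT.algebraMap_mem ⟨_, hA z hz⟩
        · rintro _ rfl
          exact mem_adjoin_simple_self k₁ T'
      exact h1 hx
    have hq' : IsAlgebraic KT q' := alg_map' (algebraMap k₀ k) hA2 hq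
    have htop' : adjoin KT {q'} = ⊤ := by
      rw [eq_top_iff]
      intro x _
      have h2 : ∀ z : k₀, algebraMap k₀ k z ∈ adjoin KT {q'} := by
        intro z
        have h3 : ad (gn (algebraMap F₀ k₀).fieldRange s) {T, q} ≤
            (adjoin KT {q'}).toSubfield.comap (algebraMap k₀ k) := by
          refine ad_le (fun z hz => ?_) ?_
          · exact (adjoin KT {q'}).algebraMap_mem ⟨_, KT.algebraMap_mem ⟨_, hA z hz⟩⟩
          · rintro z (rfl | hz)
            · exact (adjoin KT {q'}).algebraMap_mem ⟨T', mem_adjoin_simple_self k₁ T'⟩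
            · rw [Set.mem_singleton_iff.1 hz]
              exact mem_adjoin_simple_self KT q'
        rw [htop] at h3
        exact h3 (Subfield.mem_top z)
      have h4 : ad (algebraMap F k).fieldRange (Set.range (algebraMap k₀ k)) ≤
          (adjoin KT {q'}).toSubfield := by
        refine ad_le ?_ ?_
        · rintro _ ⟨c, rfl⟩
          exact (adjoin KT {q'}).algebraMap_mem ⟨_, KT.algebraMap_mem (algebraMap F k₁ c)⟩
        · rintro _ ⟨z, rfl⟩
          exact h2 z
      rw [← hbot] at h4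
      exact h4 (Subfield.mem_top x)
    have hfd : FiniteDimensional KT k := by
      have h1 : FiniteDimensional KT (adjoin KT {q'}) :=
        adjoin.finiteDimensional hq'.isIntegral
      rw [htop'] at h1
      exact (topEquiv (F := KT) (E := k)).toLinearEquiv.finiteDimensional
    refine ⟨k₁, k, inferInstance, hk₁0, inferInstance, inferInstance, T', ψ, algebraMap k₀ k,
      prm (algebraMap k₀ k ∘ w) a, hk₁, hfd, rfl, fun c => ?_, fun x => rfl, ?_, fun q => rfl, hP⟩
    · have h1 : k₁.toSubfield ≤ Ω.comap ψk := by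
        rw [hk₁sub]
        refine ad_le ?_ ?_
        · rintro _ ⟨z, rfl⟩
          exact le_acl (le_gn (hψF z))
        · rintro _ ⟨i, rfl⟩
          change ψ (algebraMap k (AlgebraicClosure k) (algebraMap k₀ k (s i))) ∈ Ω
          have h2 := hψb (Sum.inl i)
          rw [Sum.elim_inl] at h2
          rw [h2]
          exact le_acl (mem_gn (x := fun i : Fin n => y (Sum.inr (Sum.inl i))) i)
      exact h1 c.2
    · change ∑ e, ψF (a (Sum.inr e)) * σ (w e) =
        ψk (∑ e, algebraMap F k (a (Sum.inr e)) * algebraMap k₀ k (w e))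
      rw [map_sum]
      refine Finset.sum_congr rfl fun e _ => ?_
      rw [map_mul]
      rfl

/-- the parameters after a translation of the variable -/
theorem pencil_indP {S : Type u} [Field S] {K : Subfield S} {Q : Type} {m : ℕ}
    {a' : Q ⊕ Fin (m + 2) → S} (ha : AlgebraicIndependent K a') {c : S} (hc : c ∈ K)
    {x' : Q ⊕ Fin (m + 2) → S} (hxq : ∀ q, x' (Sum.inl q) = a' (Sum.inl q))
    (hx0 : x' (Sum.inr 0) = a' (Sum.inr 0) + c * a' (Sum.inr 1))
    (hx1 : ∀ e : Fin (m + 1), x' (Sum.inr e.succ) = a' (Sum.inr e.succ)) :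
    AlgebraicIndependent K x' := by
  classical
  let f : Unit ⊕ (Q ⊕ Fin (m + 1)) → Q ⊕ Fin (m + 2) :=
    Sum.elim (fun _ => Sum.inr 0) (Sum.elim (fun q => Sum.inl q) fun e => Sum.inr e.succ)
  let g : Q ⊕ Fin (m + 2) → Unit ⊕ (Q ⊕ Fin (m + 1)) :=
    Sum.elim (fun q => Sum.inr (Sum.inl q))
      (fun e => Fin.cases (Sum.inl ()) (fun e => Sum.inr (Sum.inr e)) e)
  have hgf : Function.LeftInverse g f := by
    rintro (_ | (q | e)) <;> rfl
  have hfg : Function.LeftInverse f g := by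
    rintro (q | e)
    · rfl
    · rcases Fin.eq_zero_or_eq_succ e with rfl | ⟨e, rfl⟩ <;> rfl
  let r : Q ⊕ Fin (m + 1) → S := fun p => a' (f (Sum.inr p))
  have h2 : AlgebraicIndependent K (Sum.elim (fun _ : Unit => a' (Sum.inr 0)) r) := by
    have h3 := ha.comp f hgf.injective
    convert h3 using 1
    funext i
    rcases i with i | i <;> rfl
  obtain ⟨h5, h3⟩ := indep_sum_iff.1 h2
  set K2 := gn K r with hK2
  have h4 : AlgebraicIndependent K2 (fun _ : Unit => x' (Sum.inr 0)) := by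
    have h5 := indep_add h3 (d := fun _ => c * a' (Sum.inr 1)) (by
      intro i
      exact K2.mul_mem (le_gn hc) (mem_gn (x := r) (Sum.inr 0)))
    convert h5 using 1
    funext i
    exact hx0
  have h6 : AlgebraicIndependent K (Sum.elim (fun _ : Unit => x' (Sum.inr 0)) r) :=
    indep_sum_iff.2 ⟨h5, h4⟩
  have h7 := h6.comp g hfg.injective
  convert h7 using 1
  funext p
  rcases p with q | e
  · exact hxq q
  · rcases Fin.eq_zero_or_eq_succ e with rfl | ⟨e, rfl⟩
    · rfl
    · exact hx1 e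

/-- **The algebraic functions of generic parameters over varying fields.** -/
theorem wrP {J : Type v} {Uf : Ultrafilter J} {F₀ C : Type u} [Field F₀] [Field C] [CharZero C]
    [Algebra F₀ C] [IsAlgClosed C] {S : Type u} [Field S] {π : (J → C) →+* S} (h : UP Uf π)
    {Q : Type} {m : ℕ} {b : J → Q ⊕ Fin (m + 2) → C} {Fc : J → Subfield C}
    (hFc : ∀ j, (algebraMap F₀ C).fieldRange ≤ Fc j) (hb : ∀ j p, b j p ∈ Fc j)
    (hU : ∀ Φ : Polynomial (MvPolynomial (Q ⊕ Fin (m + 2)) F₀), NoRoot Φ →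
      ∀ᶠ j in (Uf : Filter J), ∀ x ∈ Fc j, Polynomial.eval₂ (aeR (b j)) x Φ ≠ 0)
    {n : ℕ} {ys : Fin n → C} (hys : ∀ j, AlgebraicIndependent (Fc j) ys) {c : S}
    (hc : c ∈ (algebraMap F₀ C).fieldRange.map (UP.cst π)) {x' : Q ⊕ Fin (m + 2) → S}
    (hxq : ∀ q, x' (Sum.inl q) = π fun j => b j (Sum.inl q))
    (hx0 : x' (Sum.inr 0) = (π fun j => b j (Sum.inr 0)) + c * (π fun j => b j (Sum.inr 1)))
    (hx1 : ∀ e : Fin (m + 1), x' (Sum.inr e.succ) = π fun j => b j (Sum.inr e.succ))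
    {κs : Subfield C} (hκs : acl (gn (algebraMap F₀ C).fieldRange ys) ≤ κs) {z : S}
    (hz : z ∈ h.fsub fun j => gn (Fc j) ys)
    (hza : IsAlgebraic (gn ((gn (algebraMap F₀ C).fieldRange ys).map (UP.cst π)) x') z) :
    z ∈ gn (κs.map (UP.cst π)) x' := by
  have hSa : IsAlgClosed S := h.isAlgClosed
  have hS0 : CharZero S := h.charZero
  set FC : Subfield C := (algebraMap F₀ C).fieldRange with hFC
  set FS : Subfield S := FC.map (UP.cst π) with hFS
  set a' : Q ⊕ Fin (m + 2) → S := fun p => π fun j => b j p with ha'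
  set KF : Subfield S := h.fsub Fc with hKF
  set τ' : Fin n → S := fun i => UP.cst π (ys i) with hτ'
  have hFSK : FS ≤ KF := by
    rintro _ ⟨y, hy, rfl⟩
    exact h.const_mem_fsub fun j => hFc j hy
  have haK : ∀ p, a' p ∈ KF := fun p => ⟨_, fun j => hb j p, rfl⟩
  set L : Subfield S := KF ⊓ acl (gn FS a') with hL
  have hFSL : FS ≤ L := le_inf hFSK (le_gn.trans le_acl)
  have haL : ∀ p, a' p ∈ L := fun p => ⟨haK p, le_acl (mem_gn p)⟩
  have hLrel : ∀ y ∈ KF, IsAlgebraic L y → y ∈ L := fun y hy hy' =>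
    ⟨hy, acl_closed (isAlgebraic_mono inf_le_right hy')⟩
  -- the parameters
  have hxM : ∀ M : Subfield S, FS ≤ M → (∀ p, a' p ∈ M) → ∀ p, x' p ∈ M := by
    rintro M h1 h2 (q | e)
    · rw [hxq]
      exact h2 (Sum.inl q)
    rcases Fin.eq_zero_or_eq_succ e with rfl | ⟨e, rfl⟩
    · rw [hx0]
      exact M.add_mem (h2 (Sum.inr 0)) (M.mul_mem (h1 hc) (h2 (Sum.inr 1)))
    · rw [hx1]
      exact h2 (Sum.inr e.succ)
  have hFsM : ∀ M : Subfield S, FS ≤ M → (∀ i, τ' i ∈ M) → (gn FC ys).map (UP.cst π) ≤ M := by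
    intro M h1 h2
    rintro _ ⟨y, hy, rfl⟩
    have h3 : gn FC ys ≤ M.comap (UP.cst π) := gn_le (fun w hw => h1 ⟨w, hw, rfl⟩) h2
    exact h3 hy
  have hgL : gn ((gn FC ys).map (UP.cst π)) x' ≤ gen L τ' :=
    gn_le (hFsM _ (hFSL.trans le_gen) fun i => gen_mem i)
      (hxM _ (hFSL.trans le_gen) fun p => le_gen (haL p))
  have h1 : z ∈ gen KF τ' := by
    refine h.gen_relAlgClosedV hys hz ?_
    exact isAlgebraic_mono (hgL.trans (gen_mono_left inf_le_left)) hza
  have h2 : z ∈ gen L τ' :=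
    gauss_n inf_le_left hLrel (h.algIndV hys) h1 (isAlgebraic_mono hgL hza)
  -- the relative algebraic closure
  have hκsM : acl FC ≤ κs := (acl_mono le_gn).trans hκs
  have haclS : acl FS ≤ κs.map (UP.cst π) := by
    have h3 : acl FS ≤ (acl FC).map (UP.cst π) := by
      intro y hy
      refine PL.map_closed (fun x hx => acl_closed hx) (UP.cst π)
        (isAlgebraic_mono ?_ (mem_acl.1 hy))
      rintro _ ⟨w, hw, rfl⟩
      exact ⟨w, le_acl hw, rfl⟩
    refine h3.trans ?_
    rintro _ ⟨w, hw, rfl⟩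
    exact ⟨w, hκsM hw, rfl⟩
  have hFSκ : FS ≤ κs.map (UP.cst π) := le_acl.trans haclS
  have hax : ∀ p, a' p ∈ gn (κs.map (UP.cst π)) x' := by
    have h3 : ∀ e : Fin (m + 1), a' (Sum.inr e.succ) ∈ gn (κs.map (UP.cst π)) x' := by
      intro e
      have h4 : a' (Sum.inr e.succ) = x' (Sum.inr e.succ) := (hx1 e).symm
      rw [h4]
      exact mem_gn (x := x') _
    rintro (q | e)
    · have h4 : a' (Sum.inl q) = x' (Sum.inl q) := (hxq q).symm
      rw [h4]
      exact mem_gn (x := x') _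
    rcases Fin.eq_zero_or_eq_succ e with rfl | ⟨e, rfl⟩
    · have h4 : a' (Sum.inr 0) = x' (Sum.inr 0) - c * a' (Sum.inr 1) := by
        rw [hx0]
        change a' (Sum.inr 0) = a' (Sum.inr 0) + c * a' (Sum.inr 1) - c * a' (Sum.inr 1)
        ring
      rw [h4]
      have h5 := h3 0
      exact Subfield.sub_mem _ (mem_gn (x := x') _) (Subfield.mul_mem _ (le_gn (hFSκ hc)) h5)
    · exact h3 e
  have hLx : L ≤ gn (κs.map (UP.cst π)) x' := by
    intro y hy
    have h3 := rel_mem h hU hy.1 (mem_acl.1 hy.2)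
    exact (gn_le (haclS.trans le_gn) hax) h3
  have h3 : gen L τ' ≤ gn (κs.map (UP.cst π)) x' := by
    conv_lhs => unfold gen
    rw [Subfield.closure_le]
    rintro y (hy | ⟨i, rfl⟩)
    · exact hLx hy
    · exact le_gn ⟨ys i, hκs (le_acl (mem_gn i)), rfl⟩
  exact h3 h2

end Pool.Agent.SE
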